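import Pool.Agent.H537R6.Defs

set_option autoImplicit false

/-! Assembly of the theorem from the task statements (helper537). -/

namespace Pool.Agent.H537R6

open Polynomial

theorem T_le {b : ℕ} (c : ℕ → ℕ) : ∀ k : ℕ, (∀ j < k, c j ≤ 2 ^ b) →
    (∏ j ∈ Finset.range k, c j) ≤ 2 ^ (b * k)
  | 0, _ => by simp
  | k + 1, h => by
    rw [Finset.prod_range_succ, Nat.mul_succ, pow_add]
    exact Nat.mul_le_mul (T_le c k fun j hj => h j (by omega)) (h k (by omega))

theorem t_FIN : S_BD → S_DEG → S_BAS → S_DET → S_LOW → S_NUM → S_FIN := by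
  intro hBD hDEG hBAS hDET hLOW hNUM
  obtain ⟨K, hK, hLOW⟩ := hLOW
  obtain ⟨C, hC⟩ := hNUM K hK
  refine ⟨C, fun n e b h c he hb hgood => ?_⟩
  obtain ⟨hd0, hdk, hd2, hdl⟩ := hDEG n e b h c hgood
  obtain ⟨M, hM, hMx⟩ := hBD n e b h c hgood
  have hFne : F h c n ≠ 0 := by
    intro h0
    have h1 := hd2 n le_rfl
    rw [h0, natDegree_zero] at h1
    have h2 := Nat.one_le_two_pow (n := n)
    omega
  have hset : {x : ℚ | (F h c n).eval x = 0} = ↑((F h c n).roots.toFinset) := by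
    ext x
    simp [hFne]
  rw [hset]
  refine ⟨Finset.finite_toSet _, ?_⟩
  rw [Set.ncard_coe_finset]
  obtain ⟨S, hS⟩ : ∃ S : Finset ℚ, S = (F h c n).roots.toFinset := ⟨_, rfl⟩
  rw [← hS]
  obtain ⟨N, hN⟩ : ∃ N : ℕ, N = S.card := ⟨_, rfl⟩
  rw [← hN]
  have hNdeg : N ≤ (F h c n).natDegree := by
    rw [hN, hS]
    exact (Multiset.toFinset_card_le _).trans (card_roots' _)
  have hroot : ∀ x ∈ S, (F h c n).eval x = 0 := by
    intro x hx
    rw [hS] at hx
    have h1 := Multiset.mem_toFinset.1 hx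
    exact (mem_roots'.1 h1).2
  apply hC N e b he hb
  intro hprem
  rcases Nat.eq_zero_or_pos N with hN0 | hN0
  · rw [hN0]
    simp
  -- the common denominators of the leading coefficients
  obtain ⟨κ, hκ⟩ : ∃ κ : ℕ, κ = min n (Nat.log 2 N) := ⟨_, rfl⟩
  obtain ⟨T, hT⟩ : ∃ T : ℕ, T = ∏ j ∈ Finset.range κ, c j := ⟨_, rfl⟩
  have hT1 : 1 ≤ T := by
    rw [hT]
    exact Nat.succ_le_of_lt (Finset.prod_pos (s := Finset.range κ) (f := c) (fun j hj => by
      have h1 : j < n := by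
        have := Finset.mem_range.1 hj
        omega
      exact (hgood j h1).c_pos))
  have hTle : T ≤ 2 ^ (b * Nat.log 2 N) := by
    rw [hT]
    refine (T_le c κ fun j hj => (hgood j (by omega)).c_le).trans ?_
    exact Nat.pow_le_pow_right (by norm_num) (Nat.mul_le_mul_left _ (by omega))
  obtain ⟨W, hW⟩ := hBAS n e N T (F h c) M hT1 hd0 hdk (fun k hk => (hM k hk).1) (by
    intro k hk hkN
    obtain ⟨s, l, hl, hs⟩ := hdl k hk
    have h1 : 2 ^ k < N := (hd2 k hk).trans_lt hkN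
    have h2 : k ≤ Nat.log 2 N := by
      exact Nat.le_log_of_pow_le (by norm_num) h1.le
    have h3 : k ≤ κ := by omega
    have h4 : T = (∏ j ∈ Finset.range k, c j) * ∏ j ∈ Finset.Ico k κ, c j := by
      rw [hT, Finset.prod_range_mul_prod_Ico _ h3]
    refine ⟨s, ((∏ j ∈ Finset.Ico k κ, c j : ℕ) : ℤ) ^ s * l, ?_, ?_⟩
    · refine mul_ne_zero (pow_ne_zero _ ?_) hl
      have h5 : 0 < ∏ j ∈ Finset.Ico k κ, c j := Finset.prod_pos fun j hj => by
        have := Finset.mem_Ico.1 hj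
        exact (hgood j (by omega)).c_pos
      exact_mod_cast h5.ne'
    · rw [h4]
      push_cast
      push_cast at hs
      rw [mul_pow, mul_assoc, mul_comm, mul_assoc, mul_comm ((F h c k).leadingCoeff), hs]) hNdeg
  obtain ⟨B, hB⟩ : ∃ B : ℤ, B = ((e : ℤ) + 1) * 2 ^ (3 * b) := ⟨_, rfl⟩
  have hB1 : 1 ≤ B := by
    rw [hB]
    have h1 : (1 : ℤ) ≤ 2 ^ (3 * b) := one_le_pow₀ (by norm_num)
    nlinarith
  obtain ⟨L, hL⟩ : ∃ L : ℕ, L = (e - 1) * (Nat.log 2 N + 1) := ⟨_, rfl⟩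
  obtain ⟨D, hD0, hDle, s, hdvd⟩ := hDET N (M 0) T (B ^ L)
    (fun i => ((S.equivFin.symm (Fin.cast hN i) : S) : ℚ)) W (hM 0 (by omega)).1 hT1
    (by
      intro i j hij
      have h1 : S.equivFin.symm (Fin.cast hN i) = S.equivFin.symm (Fin.cast hN j) :=
        Subtype.ext hij
      have h2 := S.equivFin.symm.injective h1
      exact Fin.cast_injective hN h2)
    (by
      intro i
      obtain ⟨y, hy, _⟩ := hMx _ (hroot _ (S.equivFin.symm (Fin.cast hN i)).2) 0 (by omega)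
      refine ⟨y, ?_⟩
      rw [← hy]
      simp [F])
    (fun m hm => ⟨(hW m hm).1, (hW m hm).2.1⟩)
    (by
      intro i m hm
      obtain ⟨w, hw, hwB⟩ := (hW m hm).2.2 B _ hB1 (fun k hk => by
        rw [hB]
        exact hMx _ (hroot _ (S.equivFin.symm (Fin.cast hN i)).2) k hk)
      refine ⟨w, hw, hwB.trans ?_⟩
      refine pow_le_pow_right₀ hB1 ?_
      rw [hL]
      refine Nat.mul_le_mul_left _ (Nat.succ_le_succ ?_)
      exact Nat.log_mono_right hm.le)
  have hP1 : 1 ≤ M 0 * T := Nat.mul_pos (hM 0 (by omega)).1 hT1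
  have hlogP : Real.log ((M 0 * T : ℕ) : ℝ) ≤ ((2 * b + b * Nat.log 2 N : ℕ) : ℝ) * Real.log 2 := by
    rw [← Real.log_pow]
    refine Real.log_le_log (by exact_mod_cast hP1) ?_
    have h1 : M 0 * T ≤ 2 ^ (2 * b + b * Nat.log 2 N) := by
      rw [pow_add]
      exact Nat.mul_le_mul (hM 0 (by omega)).2 hTle
    exact_mod_cast h1
  have hlow := hLOW N (M 0 * T) s D hP1 hD0 hdvd (by
    refine le_trans ?_ hprem
    exact mul_le_mul_of_nonneg_left (by linarith) hK.le)
  refine hlow.trans ?_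
  have hDabs : ((D.natAbs : ℕ) : ℝ) = |(D : ℝ)| := by
    rw [← Int.cast_abs, Int.abs_eq_natAbs]
    simp
  have hDpos : 0 < ((D.natAbs : ℕ) : ℝ) := by
    have := Int.natAbs_pos.2 hD0
    exact_mod_cast this
  have h1 : ((D.natAbs : ℕ) : ℝ) ≤ (N.factorial : ℝ) * ((B : ℝ) ^ L) ^ N := by
    rw [hDabs]
    exact_mod_cast hDle
  have hBr : (B : ℝ) = ((e : ℝ) + 1) * 2 ^ (3 * b) := by
    rw [hB]
    push_cast
    ring
  have hBpos : (0 : ℝ) < (B : ℝ) := by
    exact_mod_cast (by omega : 0 < B)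
  have h2 : Real.log ((D.natAbs : ℕ) : ℝ) ≤
      Real.log ((N.factorial : ℝ) * ((B : ℝ) ^ L) ^ N) := Real.log_le_log hDpos h1
  refine h2.trans ?_
  have hfac : (N.factorial : ℝ) ≠ 0 := by exact_mod_cast N.factorial_ne_zero
  rw [Real.log_mul hfac (by positivity), Real.log_pow, Real.log_pow, hBr,
    Real.log_mul (by positivity) (by positivity), Real.log_pow]
  have h3 : Real.log (N.factorial : ℝ) ≤ N * Real.log N := by
    rw [← Real.log_pow]
    refine Real.log_le_log (by exact_mod_cast N.factorial_pos) ?_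
    exact_mod_cast Nat.factorial_le_pow N
  rw [← hL]
  push_cast
  nlinarith [h3]

end Pool.Agent.H537R6
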