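import Pool.Agent.H537R6.Defs2

set_option autoImplicit false

/-! Assembly of the second theorem from the task statements (helper537). -/

namespace Pool.Agent.H537R6

open Polynomial

theorem exists_X {L : ℕ} {g : ℕ → ℤ[X]} (hg : IsSLP L g) (hL : (g L).natDegree ≠ 0) :
    ∃ k ≤ L, g k = X := by
  by_contra hcon
  push Not at hcon
  have hall : ∀ k ≤ L, (g k).natDegree = 0 := by
    intro k
    induction k using Nat.strong_induction_on with
    | _ k ih =>
      intro hk
      rcases hg k hk with h1 | ⟨a, h1⟩ | ⟨i, hi, j, hj, h1⟩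
      · exact absurd h1 (hcon k hk)
      · rw [h1]
        exact natDegree_C a
      · have hi0 := ih i hi (by omega)
        have hj0 := ih j hj (by omega)
        rcases h1 with h1 | h1 | h1
        · rw [h1]
          have := natDegree_add_le (g i) (g j)
          omega
        · rw [h1]
          have := natDegree_sub_le (g i) (g j)
          omega
        · rw [h1]
          have := natDegree_mul_le (p := g i) (q := g j)
          omega
  exact hL (hall L le_rfl)

theorem u_FI2 : S_SCL → S_RAD → S_MAT → S_PAD → S_LOG → S_NU2 → S_FI2 := by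
  intro hSCL hRAD hMAT hPAD hLOG hNU
  obtain ⟨c, hc, hLOG⟩ := hLOG
  obtain ⟨K, hK⟩ := hNU c hc
  refine ⟨K, fun L b g S hg hgL hb hroot hht => ?_⟩
  obtain ⟨N, hN⟩ : ∃ N : ℕ, N = S.card := ⟨_, rfl⟩
  rw [← hN]
  rcases Nat.eq_zero_or_pos N with h0 | hN0
  · rw [h0]
    exact Nat.zero_le _
  have hmapne : (g L).map (Int.castRingHom ℚ) ≠ 0 :=
    (Polynomial.map_ne_zero_iff (RingHom.injective_int _)).2 hgL
  have hdeg : N ≤ (g L).natDegree := by
    have h1 : S ⊆ ((g L).map (Int.castRingHom ℚ)).roots.toFinset := by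
      intro x hx
      rw [Multiset.mem_toFinset, mem_roots hmapne, IsRoot.def, eval_map]
      exact hroot x hx
    have h2 := (Finset.card_le_card h1).trans ((Multiset.toFinset_card_le _).trans (card_roots' _))
    rw [natDegree_map_eq_of_injective (RingHom.injective_int _)] at h2
    omega
  obtain ⟨kX, hkX, hX⟩ := exists_X hg (by omega)
  obtain ⟨I, hI⟩ : ∃ I : ℕ, I = Nat.log 2 N := ⟨_, rfl⟩
  have hI1 : 2 ^ I ≤ N := by
    rw [hI]
    exact Nat.pow_log_le_self 2 (by omega)
  have hI2 : N < 2 ^ (I + 1) := by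
    rw [hI]
    exact Nat.lt_pow_succ_log_self (by norm_num) N
  have hsc : ∀ i, ∃ k ≤ L, i ≤ I → 2 ^ i ≤ (g k).natDegree ∧ (g k).natDegree < 2 ^ (i + 1) := by
    intro i
    by_cases hi : i ≤ I
    · have h1 : 2 ^ i ≤ (g L).natDegree :=
        (Nat.pow_le_pow_right (by norm_num) hi).trans (hI1.trans hdeg)
      obtain ⟨k, hk, h2⟩ := hSCL L g hg i h1
      exact ⟨k, hk, fun _ => h2⟩
    · exact ⟨0, Nat.zero_le _, fun h => absurd h hi⟩
  choose kf hkf hkd using hsc
  have hrad := hRAD I (fun i => (g (kf i)).natDegree) hkd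
  have hrad' : ∀ m, ∃ q : ℕ → ℕ, m < N → (∀ i, q i ≤ 3) ∧
      ∑ i ∈ Finset.range (I + 1), q i * (g (kf i)).natDegree = m := by
    intro m
    by_cases hm : m < N
    · obtain ⟨q, hq⟩ := hrad m (by
        have : 2 ^ (I + 1) ≤ 2 ^ (I + 2) := Nat.pow_le_pow_right (by norm_num) (by omega)
        omega)
      exact ⟨q, fun _ => hq⟩
    · exact ⟨0, fun h => absurd h hm⟩
  choose q hq using hrad'
  obtain ⟨x, hx⟩ : ∃ x : Fin N → ℚ, x = fun i => ((S.equivFin.symm (Fin.cast hN i) : S) : ℚ) :=
    ⟨_, rfl⟩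
  have hxS : ∀ i, x i ∈ S := by
    intro i
    rw [hx]
    exact (S.equivFin.symm (Fin.cast hN i)).2
  have hxinj : Function.Injective x := by
    intro i j hij
    rw [hx] at hij
    have h1 : S.equivFin.symm (Fin.cast hN i) = S.equivFin.symm (Fin.cast hN j) :=
      Subtype.ext hij
    have h2 := S.equivFin.symm.injective h1
    exact Fin.cast_injective hN h2
  obtain ⟨P, s, A, hA, hA0, hAle⟩ := hMAT N I b x (fun i => g (kf i)) q hxinj
    (fun i hi h0 => by
      have h1 := (hkd i hi).1
      rw [h0, natDegree_zero] at h1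
      have h2 : 0 < 2 ^ i := by positivity
      omega)
    (fun m hm => hq m hm)
    (fun j i hi => hht (x j) (hxS j) (kf i) (hkf i))
  have hlog := hLOG N b A.det.natAbs (fun j => (x j).den) hN0 hb (Int.natAbs_ne_zero.2 hA0)
    (fun j => ⟨(x j).den_pos, by
      have h1 := (hht (x j) (hxS j) kX hkX).2
      rw [hX, aeval_X] at h1
      exact h1⟩)
    (fun p hp => hPAD p hp N x P s A hA hA0)
  refine hK N b hN0 hb (hlog.trans ?_)
  have hpos : 0 < ((A.det.natAbs : ℕ) : ℝ) := by
    have := Int.natAbs_pos.2 hA0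
    exact_mod_cast this
  have h1 : ((A.det.natAbs : ℕ) : ℝ) ≤ (N.factorial : ℝ) * (2 ^ (3 * b * (I + 1))) ^ N := by
    exact_mod_cast hAle
  refine (Real.log_le_log hpos h1).trans ?_
  have hfac : (N.factorial : ℝ) ≠ 0 := by exact_mod_cast N.factorial_ne_zero
  rw [Real.log_mul hfac (by positivity), Real.log_pow, Real.log_pow]
  have h3 : Real.log (N.factorial : ℝ) ≤ N * Real.log N := by
    rw [← Real.log_pow]
    refine Real.log_le_log (by exact_mod_cast N.factorial_pos) ?_
    exact_mod_cast Nat.factorial_le_pow N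
  rw [← hI]
  push_cast
  nlinarith [h3]

end Pool.Agent.H537R6
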