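import Mathlib

set_option autoImplicit false

/-!
# Rational roots of compositions of small rational polynomials (MP_3bb5df_lc)

Definitions and the statements of all tasks (project of helper537, table `h537r_tasks`).
-/

namespace Pool.Agent.H537R6

open Polynomial

/-- `h` has degree between `2` and `e`, coefficients of absolute value at most `2^b`, and
`1 ≤ c ≤ 2^b`. -/
structure Good (e b : ℕ) (h : ℤ[X]) (c : ℕ) : Prop where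
  two_le : 2 ≤ h.natDegree
  le_e : h.natDegree ≤ e
  coeff_le : ∀ i, |h.coeff i| ≤ 2 ^ b
  c_pos : 1 ≤ c
  c_le : c ≤ 2 ^ b

/-- the rational polynomial `h / c` -/
noncomputable def G (h : ℤ[X]) (c : ℕ) : ℚ[X] := C ((c : ℚ)⁻¹) * h.map (Int.castRingHom ℚ)

/-- the compositions `F 0 = X`, `F (k+1) = (h_k / c_k) ∘ F k` -/
noncomputable def F (h : ℕ → ℤ[X]) (c : ℕ → ℕ) : ℕ → ℚ[X]
  | 0 => X
  | k + 1 => (G (h k) (c k)).comp (F h c k)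

/-- DEN: one step down, denominators. -/
def S_DEN : Prop := ∀ (h : ℤ[X]) (c : ℕ) (z : ℚ), 2 ≤ h.natDegree → 1 ≤ c →
  z.den ^ 2 ∣ h.leadingCoeff.natAbs ^ 2 * ((G h c).eval z).den

/-- ESC: large values never become smaller. -/
def S_ESC : Prop := ∀ (e b : ℕ) (h : ℤ[X]) (c : ℕ), Good e b h c → ∀ z : ℚ,
  ((e : ℚ) + 1) * 2 ^ b ≤ |z| → |z| ≤ |(G h c).eval z|

/-- BD: at a rational root of `F n` all intermediate values have bounded height. -/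
def S_BD : Prop := ∀ (n e b : ℕ) (h : ℕ → ℤ[X]) (c : ℕ → ℕ), (∀ j < n, Good e b (h j) (c j)) →
  ∃ M : ℕ → ℕ, (∀ k ≤ n, 1 ≤ M k ∧ M k ≤ 2 ^ (2 * b)) ∧
    ∀ x : ℚ, (F h c n).eval x = 0 → ∀ k ≤ n, ∃ y : ℤ,
      (M k : ℚ) * (F h c k).eval x = y ∧ |y| ≤ ((e : ℤ) + 1) * 2 ^ (3 * b)

/-- DEG: degrees and leading coefficients of the `F k`. -/
def S_DEG : Prop := ∀ (n e b : ℕ) (h : ℕ → ℤ[X]) (c : ℕ → ℕ), (∀ j < n, Good e b (h j) (c j)) →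
  (F h c 0).natDegree = 1 ∧
  (∀ k < n, 2 * (F h c k).natDegree ≤ (F h c (k + 1)).natDegree ∧
    (F h c (k + 1)).natDegree ≤ e * (F h c k).natDegree) ∧
  (∀ k ≤ n, 2 ^ k ≤ (F h c k).natDegree) ∧
  (∀ k ≤ n, ∃ s : ℕ, ∃ l : ℤ, l ≠ 0 ∧
    ((∏ j ∈ Finset.range k, c j : ℕ) : ℚ) ^ s * (F h c k).leadingCoeff = l)

/-- BAS: a basis of polynomials with integral, small values (mixed radix expansion). Here the
`Fk` are arbitrary rational polynomials whose degrees grow by factors between `2` and `e`. -/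
def S_BAS : Prop := ∀ (n e N T : ℕ) (Fk : ℕ → ℚ[X]) (M : ℕ → ℕ), 1 ≤ T →
  (Fk 0).natDegree = 1 →
  (∀ k < n, 2 * (Fk k).natDegree ≤ (Fk (k + 1)).natDegree ∧
    (Fk (k + 1)).natDegree ≤ e * (Fk k).natDegree) →
  (∀ k ≤ n, 1 ≤ M k) →
  (∀ k ≤ n, (Fk k).natDegree < N → ∃ s : ℕ, ∃ l : ℤ, l ≠ 0 ∧
    (T : ℚ) ^ s * (Fk k).leadingCoeff = l) →
  N ≤ (Fk n).natDegree →
  ∃ W : ℕ → ℚ[X], ∀ m < N, (W m).natDegree = m ∧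
    (∃ s : ℕ, ∃ l : ℤ, l ≠ 0 ∧ (T : ℚ) ^ s * (W m).leadingCoeff = l) ∧
    ∀ (B : ℤ) (x : ℚ), 1 ≤ B →
      (∀ k ≤ n, ∃ y : ℤ, (M k : ℚ) * (Fk k).eval x = y ∧ |y| ≤ B) →
      ∃ w : ℤ, (W m).eval x = w ∧ |w| ≤ B ^ ((e - 1) * (Nat.log 2 m + 1))

/-- DET: the determinant. -/
def S_DET : Prop := ∀ (N Q T : ℕ) (A : ℤ) (x : Fin N → ℚ) (W : ℕ → ℚ[X]), 1 ≤ Q → 1 ≤ T →
  Function.Injective x → (∀ i, ∃ y : ℤ, (Q : ℚ) * x i = y) →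
  (∀ m < N, (W m).natDegree = m ∧
    ∃ s : ℕ, ∃ l : ℤ, l ≠ 0 ∧ (T : ℚ) ^ s * (W m).leadingCoeff = l) →
  (∀ i, ∀ m < N, ∃ w : ℤ, (W m).eval (x i) = w ∧ |w| ≤ A) →
  ∃ D : ℤ, D ≠ 0 ∧ |D| ≤ (N.factorial : ℤ) * A ^ N ∧
    ∃ s : ℕ, ((∏ m ∈ Finset.range N, m.factorial : ℕ) : ℤ) ∣ ((Q * T : ℕ) : ℤ) ^ s * D

/-- COP: the part of `∏ m!` prime to `P` divides `D`. -/
def S_COP : Prop := ∀ (N P s : ℕ) (D : ℤ), 1 ≤ P → D ≠ 0 →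
  ((∏ m ∈ Finset.range N, m.factorial : ℕ) : ℤ) ∣ (P : ℤ) ^ s * D →
  ∑ m ∈ Finset.range N, (Real.log (m.factorial : ℝ) -
    ∑ p ∈ P.primeFactors, (m.factorial.factorization p : ℝ) * Real.log p) ≤
      Real.log ((D.natAbs : ℕ) : ℝ)

/-- PRI: the primes dividing `P` contribute little to `m!`. -/
def S_PRI : Prop := ∃ K : ℝ, 0 ≤ K ∧ ∀ (m P : ℕ), 1 ≤ P →
  ∑ p ∈ P.primeFactors, (m.factorial.factorization p : ℝ) * Real.log p ≤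
    m * (Real.log (Real.log P + 1) + K)

/-- LOW: lower bound for `log |D|`. -/
def S_LOW : Prop := ∃ K : ℝ, 0 < K ∧ ∀ (N P s : ℕ) (D : ℤ), 1 ≤ P → D ≠ 0 →
  ((∏ m ∈ Finset.range N, m.factorial : ℕ) : ℤ) ∣ (P : ℤ) ^ s * D →
  K * (Real.log P + 1) ≤ N → (N : ℝ) ^ 2 / 8 ≤ Real.log ((D.natAbs : ℕ) : ℝ)

/-- NUM: the final numerical inequality. -/
def S_NUM : Prop := ∀ K : ℝ, 0 < K → ∃ C : ℕ, ∀ N e b : ℕ, 2 ≤ e → 1 ≤ b →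
  (K * (((2 * b + b * Nat.log 2 N : ℕ) : ℝ) * Real.log 2 + 1) ≤ N →
    (N : ℝ) ^ 2 / 8 ≤ N * Real.log N + N * (((e - 1) * (Nat.log 2 N + 1) : ℕ) : ℝ) *
      (Real.log ((e : ℝ) + 1) + 3 * b * Real.log 2)) →
  N ≤ C * (e * b) ^ 2

/-- FIN: the theorem. -/
def S_FIN : Prop := ∃ C : ℕ, ∀ (n e b : ℕ) (h : ℕ → ℤ[X]) (c : ℕ → ℕ), 2 ≤ e → 1 ≤ b →
  (∀ j < n, Good e b (h j) (c j)) →
  {x : ℚ | (F h c n).eval x = 0}.Finite ∧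
  {x : ℚ | (F h c n).eval x = 0}.ncard ≤ C * (e * b) ^ 2

end Pool.Agent.H537R6
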