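import Mathlib

set_option autoImplicit false

/-!
# Programs with many rational roots have intermediate values of large height (MP_3bb5df_lc)

Definitions and the statements of all tasks (second project of helper537, table `h537s_tasks`).
-/

namespace Pool.Agent.H537R6

open Polynomial

/-- `g 0, …, g L` is a straight-line program over `ℤ[X]` with arbitrary integer constants. -/
def IsSLP (L : ℕ) (g : ℕ → ℤ[X]) : Prop :=
  ∀ k ≤ L, g k = X ∨ (∃ a : ℤ, g k = C a) ∨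
    ∃ i < k, ∃ j < k, g k = g i + g j ∨ g k = g i - g j ∨ g k = g i * g j

/-- SCL: a program reaching degree `≥ 2^i` has a gate whose degree is in `[2^i, 2^(i+1))`. -/
def S_SCL : Prop := ∀ (L : ℕ) (g : ℕ → ℤ[X]), IsSLP L g → ∀ i : ℕ, 2 ^ i ≤ (g L).natDegree →
  ∃ k ≤ L, 2 ^ i ≤ (g k).natDegree ∧ (g k).natDegree < 2 ^ (i + 1)

/-- RAD: mixed radix expansions with digits at most `3`. -/
def S_RAD : Prop := ∀ (I : ℕ) (d : ℕ → ℕ), (∀ i ≤ I, 2 ^ i ≤ d i ∧ d i < 2 ^ (i + 1)) →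
  ∀ m < 2 ^ (I + 2), ∃ q : ℕ → ℕ, (∀ i, q i ≤ 3) ∧ ∑ i ∈ Finset.range (I + 1), q i * d i = m

/-- MAT: the integer matrix. -/
def S_MAT : Prop := ∀ (N I b : ℕ) (x : Fin N → ℚ) (G : ℕ → ℤ[X]) (q : ℕ → ℕ → ℕ),
  Function.Injective x → (∀ i ≤ I, G i ≠ 0) →
  (∀ m < N, (∀ i, q m i ≤ 3) ∧ ∑ i ∈ Finset.range (I + 1), q m i * (G i).natDegree = m) →
  (∀ j, ∀ i ≤ I, (aeval (x j) (G i)).num.natAbs ≤ 2 ^ b ∧ (aeval (x j) (G i)).den ≤ 2 ^ b) →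
  ∃ (P : ℕ → ℤ[X]) (s : Fin N → ℕ) (A : Matrix (Fin N) (Fin N) ℤ),
    (∀ j m, (A j m : ℚ) = s j * aeval (x j) (P m)) ∧ A.det ≠ 0 ∧
    A.det.natAbs ≤ N.factorial * (2 ^ (3 * b * (I + 1))) ^ N

/-- VDM: Vandermonde determinants over `ℤ_[p]`. -/
def S_VDM : Prop := ∀ (p : ℕ) [Fact p.Prime] (n : ℕ) (v : Fin n → ℤ_[p]),
  ((∏ m ∈ Finset.range n, m.factorial : ℕ) : ℤ_[p]) ∣ (Matrix.vandermonde v).det

/-- PAD: divisibility of the determinant by powers of `p`. -/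
def S_PAD : Prop := ∀ (p : ℕ), p.Prime → ∀ (N : ℕ) (x : Fin N → ℚ) (P : ℕ → ℤ[X]) (s : Fin N → ℕ)
  (A : Matrix (Fin N) (Fin N) ℤ), (∀ j m, (A j m : ℚ) = s j * aeval (x j) (P m)) → A.det ≠ 0 →
  ∑ m ∈ Finset.range (Finset.univ.filter fun j => ¬ p ∣ (x j).den).card,
    m.factorial.factorization p ≤ A.det.natAbs.factorization p

/-- LOG: lower bound for `log |D|` from the divisibilities; `u p` is the number of the bad points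
for the prime `p`. -/
def S_LOG : Prop := ∃ c : ℝ, 0 < c ∧ ∀ (N b D : ℕ) (r : Fin N → ℕ), 1 ≤ N → 1 ≤ b → D ≠ 0 →
  (∀ j, 1 ≤ r j ∧ r j ≤ 2 ^ b) →
  (∀ p : ℕ, p.Prime → ∑ m ∈ Finset.range (Finset.univ.filter fun j => ¬ p ∣ r j).card,
    m.factorial.factorization p ≤ D.factorization p) →
  (N : ℝ) ^ 2 * (Real.log ((N : ℝ) / b) / 2 - c) ≤ Real.log D

/-- NU2: the final numerical inequality. -/
def S_NU2 : Prop := ∀ c : ℝ, 0 < c → ∃ K : ℕ, ∀ N b : ℕ, 1 ≤ N → 1 ≤ b →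
  (N : ℝ) ^ 2 * (Real.log ((N : ℝ) / b) / 2 - c) ≤
    N * Real.log N + N * (3 * b * (Nat.log 2 N + 1) * Real.log 2) →
  N ≤ K * (b * (Nat.log 2 b + 1))

/-- FI2: the theorem. -/
def S_FI2 : Prop := ∃ K : ℕ, ∀ (L b : ℕ) (g : ℕ → ℤ[X]) (S : Finset ℚ), IsSLP L g → g L ≠ 0 →
  1 ≤ b → (∀ x ∈ S, aeval x (g L) = 0) →
  (∀ x ∈ S, ∀ k ≤ L, (aeval x (g k)).num.natAbs ≤ 2 ^ b ∧ (aeval x (g k)).den ≤ 2 ^ b) →
  S.card ≤ K * (b * (Nat.log 2 b + 1))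

end Pool.Agent.H537R6
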