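import Pool.Agent.H537R6.Defs2

set_option autoImplicit false

/-! Task MAT: the integer matrix. -/

namespace Pool.Agent.H537R6

open Polynomial

theorem U_MAT.entry (n : ℤ) (d q : ℕ) (v : ℚ) (hq : q ≤ 3) (hn : v.num = n) (hd : v.den = d) :
    (d : ℚ) ^ (3 - q) * (n : ℚ) ^ q = (d : ℚ) ^ 3 * v ^ q := by
  have hd0 : (d : ℚ) ≠ 0 := by
    rw [← hd]
    exact_mod_cast v.den_nz
  have h1 : (n : ℚ) = d * v := by
    rw [← hn, ← hd, Rat.den_mul_eq_num]
  have h2 : (d : ℚ) ^ 3 = (d : ℚ) ^ (3 - q) * (d : ℚ) ^ q := by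
    rw [← pow_add]
    congr 1
    omega
  rw [h1, mul_pow, h2]
  ring

theorem u_MAT : S_MAT := by
  classical
  intro N I b x G q hx hG hq hb
  set P : ℕ → ℤ[X] := fun m => ∏ i ∈ Finset.range (I + 1), (G i) ^ (q m i) with hP
  set s : Fin N → ℕ := fun j => ∏ i ∈ Finset.range (I + 1), (aeval (x j) (G i)).den ^ 3 with hs
  set A : Matrix (Fin N) (Fin N) ℤ := Matrix.of fun j m => ∏ i ∈ Finset.range (I + 1),
    (((aeval (x j) (G i)).den : ℤ) ^ (3 - q m i) * (aeval (x j) (G i)).num ^ (q m i)) with hA
  have hAent : ∀ j m, (A j m : ℚ) = s j * aeval (x j) (P m) := by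
    intro j m
    rw [hA, hs, hP]
    simp only [Matrix.of_apply]
    push_cast
    rw [map_prod, ← Finset.prod_mul_distrib]
    refine Finset.prod_congr rfl fun i _ => ?_
    rw [map_pow]
    exact U_MAT.entry _ _ _ _ ((hq m m.2).1 i) rfl rfl
  have hGr : ∀ i ∈ Finset.range (I + 1), G i ≠ 0 := by
    intro i hi
    exact hG i (by have := Finset.mem_range.1 hi; omega)
  have hdegP : ∀ m : Fin N, (P m).natDegree = m := by
    intro m
    rw [hP]
    simp only
    rw [natDegree_prod _ _ (fun i hi => pow_ne_zero _ (hGr i hi))]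
    simp only [natDegree_pow]
    exact (hq m m.2).2
  have hP0 : ∀ m : ℕ, P m ≠ 0 := by
    intro m
    rw [hP]
    exact Finset.prod_ne_zero_iff.2 fun i hi => pow_ne_zero _ (hGr i hi)
  have hs0 : ∀ j, (s j : ℚ) ≠ 0 := by
    intro j
    rw [hs]
    have : (∏ i ∈ Finset.range (I + 1), (aeval (x j) (G i)).den ^ 3) ≠ 0 :=
      Finset.prod_ne_zero_iff.2 fun i _ => pow_ne_zero _ (Rat.den_nz _)
    exact_mod_cast this
  refine ⟨P, s, A, hAent, ?_, ?_⟩
  · -- the determinant does not vanish
    set W : ℕ → ℚ[X] := fun m => (P m).map (algebraMap ℤ ℚ) with hW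
    have hinj : Function.Injective (algebraMap ℤ ℚ) := by
      intro a c hac
      simpa using hac
    have hWdeg : ∀ m : Fin N, (W m).natDegree = m := by
      intro m
      rw [hW]
      simp only
      rw [natDegree_map_eq_of_injective hinj, hdegP]
    have hW0 : ∀ m : ℕ, W m ≠ 0 := by
      intro m
      rw [hW]
      exact (Polynomial.map_ne_zero_iff hinj).2 (hP0 m)
    have hev : ∀ (j : Fin N) (m : ℕ), aeval (x j) (P m) = (W m).eval (x j) := by
      intro j m
      rw [aeval_def, eval₂_eq_eval_map]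
    have h1 : ((A.det : ℤ) : ℚ) = (∏ j, (s j : ℚ)) *
        ((Matrix.vandermonde x).det * ∏ m : Fin N, (W m).leadingCoeff) := by
      have h2 : (A.det : ℚ) = Int.castRingHom ℚ A.det := rfl
      rw [h2, RingHom.map_det]
      have h3 : (Int.castRingHom ℚ).mapMatrix A =
          Matrix.diagonal (fun j => (s j : ℚ)) *
            (Matrix.of fun i j : Fin N => (W j).eval (x i)) := by
        ext i j
        rw [Matrix.diagonal_mul]
        simp only [RingHom.mapMatrix_apply, Matrix.map_apply, eq_intCast, Matrix.of_apply]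
        rw [hAent, hev]
      rw [h3, Matrix.det_mul, Matrix.det_diagonal]
      congr 1
      rw [Matrix.eval_matrixOfPolynomials_eq_vandermonde_mul_matrixOfPolynomials x
        (fun j : Fin N => W j) (fun j => (hWdeg j).le), Matrix.det_mul]
      congr 1
      rw [Matrix.det_of_isUpperTriangular]
      · refine Finset.prod_congr rfl fun j _ => ?_
        rw [Matrix.of_apply, leadingCoeff, hWdeg j]
      · intro i j hij
        rw [Matrix.of_apply]
        apply coeff_eq_zero_of_natDegree_lt
        rw [hWdeg j]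
        exact hij
    intro h0
    rw [h0, Int.cast_zero] at h1
    have h4 : (∏ j, (s j : ℚ)) *
        ((Matrix.vandermonde x).det * ∏ m : Fin N, (W m).leadingCoeff) ≠ 0 := by
      refine mul_ne_zero (Finset.prod_ne_zero_iff.2 fun j _ => hs0 j) (mul_ne_zero ?_ ?_)
      · exact Matrix.det_vandermonde_ne_zero_iff.2 hx
      · exact Finset.prod_ne_zero_iff.2 fun m _ => leadingCoeff_ne_zero.2 (hW0 m)
    exact h4 h1.symm
  · -- the bound
    have hbd : ∀ i j, |A i j| ≤ ((2 ^ (3 * b * (I + 1)) : ℕ) : ℤ) := by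
      intro j m
      rw [hA]
      simp only [Matrix.of_apply]
      rw [Finset.abs_prod]
      have h1 : ∀ i ∈ Finset.range (I + 1),
          |((aeval (x j) (G i)).den : ℤ) ^ (3 - q m i) * (aeval (x j) (G i)).num ^ (q m i)| ≤
            (2 : ℤ) ^ (3 * b) := by
        intro i hi
        have hi' : i ≤ I := by
          have := Finset.mem_range.1 hi
          omega
        obtain ⟨hn, hd⟩ := hb j i hi'
        have hq3 := (hq m m.2).1 i
        have hn' : |(aeval (x j) (G i)).num| ≤ (2 : ℤ) ^ b := by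
          rw [Int.abs_eq_natAbs]
          exact_mod_cast hn
        have hd' : |((aeval (x j) (G i)).den : ℤ)| ≤ (2 : ℤ) ^ b := by
          rw [abs_of_nonneg (by positivity)]
          exact_mod_cast hd
        rw [abs_mul, abs_pow, abs_pow]
        calc |((aeval (x j) (G i)).den : ℤ)| ^ (3 - q m i) * |(aeval (x j) (G i)).num| ^ (q m i)
            ≤ ((2 : ℤ) ^ b) ^ (3 - q m i) * ((2 : ℤ) ^ b) ^ (q m i) :=
              mul_le_mul (pow_le_pow_left₀ (abs_nonneg _) hd' _)
                (pow_le_pow_left₀ (abs_nonneg _) hn' _) (by positivity) (by positivity)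
          _ = (2 : ℤ) ^ (3 * b) := by
              rw [← pow_add, ← pow_mul]
              congr 1
              have : 3 - q (↑m) i + q (↑m) i = 3 := by omega
              rw [this]
              ring
      calc ∏ i ∈ Finset.range (I + 1),
          |((aeval (x j) (G i)).den : ℤ) ^ (3 - q m i) * (aeval (x j) (G i)).num ^ (q m i)|
          ≤ ∏ i ∈ Finset.range (I + 1), (2 : ℤ) ^ (3 * b) :=
            Finset.prod_le_prod (fun i _ => abs_nonneg _) h1
        _ = ((2 ^ (3 * b * (I + 1)) : ℕ) : ℤ) := by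
            rw [Finset.prod_const, Finset.card_range, ← pow_mul]
            push_cast
            rfl
    have h2 := Matrix.det_le (A := A) (abv := (AbsoluteValue.abs : AbsoluteValue ℤ ℤ))
      (x := ((2 ^ (3 * b * (I + 1)) : ℕ) : ℤ)) (fun i j => hbd i j)
    rw [Fintype.card_fin, nsmul_eq_mul] at h2
    have h3 : (A.det.natAbs : ℤ) ≤
        ((N.factorial * (2 ^ (3 * b * (I + 1))) ^ N : ℕ) : ℤ) := by
      rw [← Int.abs_eq_natAbs]
      push_cast
      push_cast at h2
      exact h2
    exact_mod_cast h3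

end Pool.Agent.H537R6
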