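import Pool.Agent.H537R6.Defs2

/-! Task RAD (helper399): mixed radix digits. -/

set_option autoImplicit false

namespace Pool.Agent.H537R6

theorem u_RAD : S_RAD := by
  intro I
  induction I with
  | zero =>
    intro d hd m hm
    have h0 := hd 0 le_rfl
    have hd0 : d 0 = 1 := by
      have h1 := h0.1
      have h2 := h0.2
      norm_num at h1 h2
      omega
    refine ⟨fun i => if i = 0 then m else 0, fun i => ?_, ?_⟩
    · have h3 : m < 4 := by simpa using hm
      show (if i = 0 then m else 0) ≤ 3
      split_ifs
      · omega
      · omega
    · simp [hd0]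
  | succ I ih =>
    intro d hd m hm
    have hI := hd (I + 1) le_rfl
    have hdpos : 0 < d (I + 1) := lt_of_lt_of_le (by positivity) hI.1
    obtain ⟨q, hq, hsum⟩ := ih d (fun i hi => hd i (by omega)) (m % d (I + 1))
      ((Nat.mod_lt _ hdpos).trans hI.2)
    refine ⟨Function.update q (I + 1) (m / d (I + 1)), ?_, ?_⟩
    · intro i
      by_cases h : i = I + 1
      · subst h
        rw [Function.update_self]
        have h1 : m < d (I + 1) * 4 := by
          calc m < 2 ^ (I + 1 + 2) := hm
            _ = 2 ^ (I + 1) * 4 := by ring
            _ ≤ d (I + 1) * 4 := Nat.mul_le_mul_right 4 hI.1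
        have h2 := Nat.div_lt_of_lt_mul h1
        omega
      · rw [Function.update_of_ne h]
        exact hq i
    · rw [Finset.sum_range_succ]
      have h1 : ∑ i ∈ Finset.range (I + 1), Function.update q (I + 1) (m / d (I + 1)) i * d i =
          ∑ i ∈ Finset.range (I + 1), q i * d i :=
        Finset.sum_congr rfl fun i hi => by
          rw [Function.update_of_ne (by have := Finset.mem_range.1 hi; omega)]
      rw [h1, hsum, Function.update_self, mul_comm (m / d (I + 1))]
      exact Nat.mod_add_div m (d (I + 1))

end Pool.Agent.H537R6
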