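import Pool.Agent.H537R6.Defs2
import Pool.Agent.H537R6.Asm2
import Pool.Agent.H537R6.U_MAT
import Pool.Agent.H537R6.U_RAD

set_option autoImplicit false

/-! Programs with rational constants (helper537; `sclQ`, `matQ` adapted from `U_SCL`, `U_MAT` of
helper399, helper632). -/

namespace Pool.Agent.H537R6

open Polynomial

/-- `g 0, …, g L` is a straight-line program over `ℚ[X]` with arbitrary rational constants. -/
def IsSLPQ (L : ℕ) (g : ℕ → ℚ[X]) : Prop :=
  ∀ k ≤ L, g k = X ∨ (∃ a : ℚ, g k = C a) ∨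
    ∃ i < k, ∃ j < k, g k = g i + g j ∨ g k = g i - g j ∨ g k = g i * g j

theorem sclQ (L : ℕ) (g : ℕ → ℚ[X]) (hg : IsSLPQ L g) (i : ℕ) (hL : 2 ^ i ≤ (g L).natDegree) :
    ∃ k ≤ L, 2 ^ i ≤ (g k).natDegree ∧ (g k).natDegree < 2 ^ (i + 1) := by
  classical
  have hex : ∃ k, k ≤ L ∧ 2 ^ i ≤ (g k).natDegree := ⟨L, le_rfl, hL⟩
  obtain ⟨k, hkf⟩ : ∃ k, k = Nat.find hex := ⟨_, rfl⟩
  have hspec := Nat.find_spec hex
  rw [← hkf] at hspec
  obtain ⟨hk, hdeg⟩ := hspec
  have hmin : ∀ j < k, (g j).natDegree < 2 ^ i := by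
    intro j hj
    have h1 := Nat.find_min hex (by rw [← hkf]; exact hj)
    by_contra h
    exact h1 ⟨by omega, by omega⟩
  refine ⟨k, hk, hdeg, ?_⟩
  have h1 : 1 ≤ 2 ^ i := Nat.one_le_two_pow
  have h2 : 2 ^ (i + 1) = 2 * 2 ^ i := by ring
  rcases hg k hk with h | ⟨a, h⟩ | ⟨u, hu, v, hv, h⟩
  · rw [h, natDegree_X]; omega
  · rw [h, natDegree_C]; positivity
  · have hu' := hmin u hu
    have hv' := hmin v hv
    rcases h with h | h | h
    · rw [h]
      have h3 := natDegree_add_le (g u) (g v)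
      have h4 : max (g u).natDegree (g v).natDegree < 2 ^ i := max_lt hu' hv'
      omega
    · rw [h]
      have h3 := natDegree_sub_le (g u) (g v)
      have h4 : max (g u).natDegree (g v).natDegree < 2 ^ i := max_lt hu' hv'
      omega
    · rw [h]
      have h3 := natDegree_mul_le (p := g u) (q := g v)
      omega

theorem matQ (N I b : ℕ) (x : Fin N → ℚ) (G : ℕ → ℚ[X]) (q : ℕ → ℕ → ℕ)
    (hx : Function.Injective x) (hG : ∀ i ≤ I, G i ≠ 0)
    (hq : ∀ m < N, (∀ i, q m i ≤ 3) ∧ ∑ i ∈ Finset.range (I + 1), q m i * (G i).natDegree = m)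
    (hb : ∀ j, ∀ i ≤ I, ((G i).eval (x j)).num.natAbs ≤ 2 ^ b ∧ ((G i).eval (x j)).den ≤ 2 ^ b) :
    ∃ (s : Fin N → ℕ) (A : Matrix (Fin N) (Fin N) ℤ),
      (∀ j m, (A j m : ℚ) = s j * (∏ i ∈ Finset.range (I + 1), (G i) ^ (q m i)).eval (x j)) ∧
      A.det ≠ 0 ∧ A.det.natAbs ≤ N.factorial * (2 ^ (3 * b * (I + 1))) ^ N := by
  classical
  set P : ℕ → ℚ[X] := fun m => ∏ i ∈ Finset.range (I + 1), (G i) ^ (q m i) with hP
  set s : Fin N → ℕ := fun j => ∏ i ∈ Finset.range (I + 1), ((G i).eval (x j)).den ^ 3 with hs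
  set A : Matrix (Fin N) (Fin N) ℤ := Matrix.of fun j m => ∏ i ∈ Finset.range (I + 1),
    ((((G i).eval (x j)).den : ℤ) ^ (3 - q m i) * ((G i).eval (x j)).num ^ (q m i)) with hA
  have hAent : ∀ j m, (A j m : ℚ) = s j * (P m).eval (x j) := by
    intro j m
    rw [hA, hs, hP]
    simp only [Matrix.of_apply]
    push_cast
    rw [eval_prod, ← Finset.prod_mul_distrib]
    refine Finset.prod_congr rfl fun i _ => ?_
    rw [eval_pow]
    exact U_MAT.entry _ _ _ _ ((hq m m.2).1 i) rfl rfl
  have hGr : ∀ i ∈ Finset.range (I + 1), G i ≠ 0 := by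
    intro i hi
    exact hG i (by have := Finset.mem_range.1 hi; omega)
  have hdegP : ∀ m : Fin N, (P m).natDegree = m := by
    intro m
    rw [hP]
    simp only
    rw [natDegree_prod _ _ (fun i hi => pow_ne_zero _ (hGr i hi))]
    simp only [natDegree_pow]
    exact (hq m m.2).2
  have hP0 : ∀ m : ℕ, P m ≠ 0 := by
    intro m
    rw [hP]
    exact Finset.prod_ne_zero_iff.2 fun i hi => pow_ne_zero _ (hGr i hi)
  have hs0 : ∀ j, (s j : ℚ) ≠ 0 := by
    intro j
    rw [hs]
    have : (∏ i ∈ Finset.range (I + 1), ((G i).eval (x j)).den ^ 3) ≠ 0 :=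
      Finset.prod_ne_zero_iff.2 fun i _ => pow_ne_zero _ (Rat.den_nz _)
    exact_mod_cast this
  refine ⟨s, A, hAent, ?_, ?_⟩
  · -- the determinant does not vanish
    set W : ℕ → ℚ[X] := P with hW
    have hWdeg : ∀ m : Fin N, (W m).natDegree = m := hdegP
    have hW0 : ∀ m : ℕ, W m ≠ 0 := hP0
    have hev : ∀ (j : Fin N) (m : ℕ), (P m).eval (x j) = (W m).eval (x j) := fun _ _ => rfl
    have h1 : ((A.det : ℤ) : ℚ) = (∏ j, (s j : ℚ)) *
        ((Matrix.vandermonde x).det * ∏ m : Fin N, (W m).leadingCoeff) := by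
      have h2 : (A.det : ℚ) = Int.castRingHom ℚ A.det := rfl
      rw [h2, RingHom.map_det]
      have h3 : (Int.castRingHom ℚ).mapMatrix A =
          Matrix.diagonal (fun j => (s j : ℚ)) *
            (Matrix.of fun i j : Fin N => (W j).eval (x i)) := by
        ext i j
        rw [Matrix.diagonal_mul]
        simp only [RingHom.mapMatrix_apply, Matrix.map_apply, eq_intCast, Matrix.of_apply]
        rw [hAent, hev]
      rw [h3, Matrix.det_mul, Matrix.det_diagonal]
      congr 1
      rw [Matrix.eval_matrixOfPolynomials_eq_vandermonde_mul_matrixOfPolynomials x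
        (fun j : Fin N => W j) (fun j => (hWdeg j).le), Matrix.det_mul]
      congr 1
      rw [Matrix.det_of_isUpperTriangular]
      · refine Finset.prod_congr rfl fun j _ => ?_
        rw [Matrix.of_apply, leadingCoeff, hWdeg j]
      · intro i j hij
        rw [Matrix.of_apply]
        apply coeff_eq_zero_of_natDegree_lt
        rw [hWdeg j]
        exact hij
    intro h0
    rw [h0, Int.cast_zero] at h1
    have h4 : (∏ j, (s j : ℚ)) *
        ((Matrix.vandermonde x).det * ∏ m : Fin N, (W m).leadingCoeff) ≠ 0 := by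
      refine mul_ne_zero (Finset.prod_ne_zero_iff.2 fun j _ => hs0 j) (mul_ne_zero ?_ ?_)
      · exact Matrix.det_vandermonde_ne_zero_iff.2 hx
      · exact Finset.prod_ne_zero_iff.2 fun m _ => leadingCoeff_ne_zero.2 (hW0 m)
    exact h4 h1.symm
  · -- the bound
    have hbd : ∀ i j, |A i j| ≤ ((2 ^ (3 * b * (I + 1)) : ℕ) : ℤ) := by
      intro j m
      rw [hA]
      simp only [Matrix.of_apply]
      rw [Finset.abs_prod]
      have h1 : ∀ i ∈ Finset.range (I + 1),
          |(((G i).eval (x j)).den : ℤ) ^ (3 - q m i) * ((G i).eval (x j)).num ^ (q m i)| ≤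
            (2 : ℤ) ^ (3 * b) := by
        intro i hi
        have hi' : i ≤ I := by
          have := Finset.mem_range.1 hi
          omega
        obtain ⟨hn, hd⟩ := hb j i hi'
        have hq3 := (hq m m.2).1 i
        have hn' : |((G i).eval (x j)).num| ≤ (2 : ℤ) ^ b := by
          rw [Int.abs_eq_natAbs]
          exact_mod_cast hn
        have hd' : |(((G i).eval (x j)).den : ℤ)| ≤ (2 : ℤ) ^ b := by
          rw [abs_of_nonneg (by positivity)]
          exact_mod_cast hd
        rw [abs_mul, abs_pow, abs_pow]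
        calc |(((G i).eval (x j)).den : ℤ)| ^ (3 - q m i) * |((G i).eval (x j)).num| ^ (q m i)
            ≤ ((2 : ℤ) ^ b) ^ (3 - q m i) * ((2 : ℤ) ^ b) ^ (q m i) :=
              mul_le_mul (pow_le_pow_left₀ (abs_nonneg _) hd' _)
                (pow_le_pow_left₀ (abs_nonneg _) hn' _) (by positivity) (by positivity)
          _ = (2 : ℤ) ^ (3 * b) := by
              rw [← pow_add, ← pow_mul]
              congr 1
              have : 3 - q (↑m) i + q (↑m) i = 3 := by omega
              rw [this]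
              ring
      calc ∏ i ∈ Finset.range (I + 1),
          |(((G i).eval (x j)).den : ℤ) ^ (3 - q m i) * ((G i).eval (x j)).num ^ (q m i)|
          ≤ ∏ i ∈ Finset.range (I + 1), (2 : ℤ) ^ (3 * b) :=
            Finset.prod_le_prod (fun i _ => abs_nonneg _) h1
        _ = ((2 ^ (3 * b * (I + 1)) : ℕ) : ℤ) := by
            rw [Finset.prod_const, Finset.card_range, ← pow_mul]
            push_cast
            rfl
    have h2 := Matrix.det_le (A := A) (abv := (AbsoluteValue.abs : AbsoluteValue ℤ ℤ))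
      (x := ((2 ^ (3 * b * (I + 1)) : ℕ) : ℤ)) (fun i j => hbd i j)
    rw [Fintype.card_fin, nsmul_eq_mul] at h2
    have h3 : (A.det.natAbs : ℤ) ≤
        ((N.factorial * (2 ^ (3 * b * (I + 1))) ^ N : ℕ) : ℤ) := by
      rw [← Int.abs_eq_natAbs]
      push_cast
      push_cast at h2
      exact h2
    exact_mod_cast h3

end Pool.Agent.H537R6
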