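import Pool.Agent.H537R6.Defs2
import Pool.Agent.Helper256.KM.Mertens

set_option autoImplicit false

/-!
# Lower bound for `log D` from the divisibilities (task LOG)
-/

namespace Pool.Agent.H537R6

namespace U_LOG

open Finset

/-- part of the logarithm -/
theorem part_log (D : ℕ) (S : Finset ℕ) :
    ∑ p ∈ S, (D.factorization p : ℝ) * Real.log p ≤ Real.log D := by
  rw [Real.log_nat_eq_sum_factorization, Finsupp.sum]
  have h1 : ∑ p ∈ S ∪ D.factorization.support, (D.factorization p : ℝ) * Real.log p =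
      ∑ p ∈ D.factorization.support, (D.factorization p : ℝ) * Real.log p := by
    symm
    apply sum_subset subset_union_right
    intro p _ hp
    rw [Finsupp.notMem_support_iff] at hp
    rw [hp]
    simp
  rw [← h1]
  apply sum_le_sum_of_subset_of_nonneg subset_union_left
  intro p _ _
  exact mul_nonneg (Nat.cast_nonneg _) (Real.log_natCast_nonneg p)

theorem fact_ge {p : ℕ} (hp : p.Prime) (m : ℕ) :
    (m : ℝ) / p - 1 ≤ (m.factorial.factorization p : ℝ) := by
  have h1 : m / p ≤ m.factorial.factorization p := by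
    rw [Nat.factorization_factorial hp (Nat.lt_succ_of_lt (Nat.lt_succ_self (Nat.log p m)))]
    have h2 : (1 : ℕ) ∈ Ico 1 (Nat.log p m + 1 + 1) := by
      rw [mem_Ico]
      omega
    have h3 := single_le_sum (f := fun i => m / p ^ i) (fun i _ => Nat.zero_le _) h2
    simpa using h3
  have hp0 : (0 : ℝ) < p := by exact_mod_cast hp.pos
  have h2 : (m : ℝ) / p - 1 ≤ ((m / p : ℕ) : ℝ) := by
    have h3 : m < p * (m / p + 1) := Nat.lt_mul_div_succ m hp.pos
    have h4 : (m : ℝ) < p * (((m / p : ℕ) : ℝ) + 1) := by exact_mod_cast h3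
    have h5 : (m : ℝ) / p < ((m / p : ℕ) : ℝ) + 1 := by
      rw [div_lt_iff₀ hp0]
      linarith
    linarith
  have h3 : ((m / p : ℕ) : ℝ) ≤ (m.factorial.factorization p : ℝ) := by exact_mod_cast h1
  linarith

theorem inner_ge {p : ℕ} (hp : p.Prime) (n : ℕ) :
    (n : ℝ) * (n - 1) / (2 * p) - n ≤
      ((∑ m ∈ range n, m.factorial.factorization p : ℕ) : ℝ) := by
  have hp0 : (0 : ℝ) < p := by exact_mod_cast hp.pos
  induction n with
  | zero => simp
  | succ n ih =>
    rw [sum_range_succ]
    push_cast at ih ⊢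
    have h1 := fact_ge hp n
    have e : ((n : ℝ) + 1) * (n + 1 - 1) / (2 * p) - (n + 1) =
        (n * (n - 1) / (2 * p) - n) + (n / p - 1) := by
      field_simp
      ring
    rw [e]
    linarith

theorem term_ge {p : ℕ} (hp : p.Prime) (N n B : ℕ) (h : n + B = N) :
    (N : ℝ) ^ 2 / 2 * (1 / p) - N * (B / p) - 3 / 2 * N ≤
      ((∑ m ∈ range n, m.factorial.factorization p : ℕ) : ℝ) := by
  refine le_trans ?_ (inner_ge hp n)
  have hp1 : (1 : ℝ) ≤ p := by exact_mod_cast hp.one_lt.le
  have hp0 : (0 : ℝ) < p := by linarith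
  have hN : (N : ℝ) = n + B := by exact_mod_cast h.symm
  have hn0 : (0 : ℝ) ≤ n := Nat.cast_nonneg _
  have hB0 : (0 : ℝ) ≤ B := Nat.cast_nonneg _
  have e : (n : ℝ) * (n - 1) / (2 * p) - n - ((N : ℝ) ^ 2 / 2 * (1 / p) - N * (B / p) - 3 / 2 * N) =
      (B ^ 2 - n) / (2 * p) + (1 / 2 * n + 3 / 2 * B) := by
    rw [hN]
    field_simp
    ring
  have h1 : -(n : ℝ) / 2 ≤ (B ^ 2 - n) / (2 * p) := by
    rw [le_div_iff₀ (by positivity)]
    nlinarith [mul_nonneg hn0 (sub_nonneg.2 hp1), sq_nonneg (B : ℝ)]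
  linarith

end U_LOG

open Finset U_LOG in
theorem u_LOG : S_LOG := by
  classical
  obtain ⟨C, hC⟩ := Pool.Agent.Helper256.KM.mertens_log
  have hlog2 : 0 < Real.log 2 := Real.log_pos (by norm_num)
  have hlog4 : 0 < Real.log 4 := Real.log_pos (by norm_num)
  refine ⟨|C| + Real.log 2 + 3 / 2 * Real.log 4, by positivity, ?_⟩
  intro N b D r hN hb hD hr hdiv
  have hNr : (1 : ℝ) ≤ N := by exact_mod_cast hN
  have hbr : (1 : ℝ) ≤ b := by exact_mod_cast hb
  have hC0 : C ≤ |C| := le_abs_self C
  rcases le_or_gt N b with hNb | hNb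
  · have h1 : Real.log ((N : ℝ) / b) ≤ 0 := by
      apply Real.log_nonpos (by positivity)
      rw [div_le_one (by linarith)]
      exact_mod_cast hNb
    have h2 : (0 : ℝ) ≤ Real.log D := Real.log_natCast_nonneg D
    have h3 : Real.log ((N : ℝ) / b) / 2 - (|C| + Real.log 2 + 3 / 2 * Real.log 4) ≤ 0 := by
      have := abs_nonneg C
      linarith
    exact (mul_nonpos_of_nonneg_of_nonpos (by positivity) h3).trans h2
  · -- primes in `(b, N]`
    set P : Finset ℕ := (Ioc b N).filter Nat.Prime with hP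
    have hPp : ∀ p ∈ P, p.Prime ∧ b < p ∧ p ≤ N := by
      intro p hp
      rw [hP, mem_filter, mem_Ioc] at hp
      exact ⟨hp.2, hp.1.1, hp.1.2⟩
    let Bd : ℕ → ℕ := fun p => (univ.filter fun j => p ∣ r j).card
    let nn : ℕ → ℕ := fun p => (univ.filter fun j => ¬ p ∣ r j).card
    have hnB : ∀ p, nn p + Bd p = N := by
      intro p
      have := card_filter_add_card_filter_not (s := (univ : Finset (Fin N))) (fun j => p ∣ r j)
      rw [card_univ, Fintype.card_fin] at this
      show (univ.filter fun j => ¬ p ∣ r j).card + (univ.filter fun j => p ∣ r j).card = N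
      omega
    have hlp : ∀ p ∈ P, 0 ≤ Real.log (p : ℝ) := fun p _ => Real.log_natCast_nonneg p
    -- the sum
    have h1 : ∑ p ∈ P, ((N : ℝ) ^ 2 / 2 * (1 / p) - N * (Bd p / p) - 3 / 2 * N) * Real.log p ≤
        Real.log D := by
      refine le_trans (sum_le_sum fun p hp => ?_) (part_log D P)
      apply mul_le_mul_of_nonneg_right _ (hlp p hp)
      refine (term_ge (hPp p hp).1 N (nn p) (Bd p) (hnB p)).trans ?_
      exact_mod_cast hdiv p (hPp p hp).1
    have e1 : ∑ p ∈ P, ((N : ℝ) ^ 2 / 2 * (1 / p) - N * (Bd p / p) - 3 / 2 * N) * Real.log p =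
        (N : ℝ) ^ 2 / 2 * ∑ p ∈ P, Real.log p / p - N * ∑ p ∈ P, (Bd p / p) * Real.log p -
          3 / 2 * N * ∑ p ∈ P, Real.log p := by
      rw [mul_sum, mul_sum, mul_sum, ← sum_sub_distrib, ← sum_sub_distrib]
      apply sum_congr rfl
      intro p _
      ring
    -- Mertens
    have h2 : Real.log N - Real.log b - 2 * C ≤ ∑ p ∈ P, Real.log p / p := by
      have hu : (Icc 1 N).filter Nat.Prime = (Icc 1 b).filter Nat.Prime ∪ P := by
        ext p
        simp only [hP, mem_union, mem_filter, mem_Icc, mem_Ioc]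
        constructor
        · rintro ⟨⟨h1, h2⟩, h3⟩
          rcases le_or_gt p b with h4 | h4
          · exact Or.inl ⟨⟨h1, h4⟩, h3⟩
          · exact Or.inr ⟨⟨h4, h2⟩, h3⟩
        · rintro (⟨⟨h1, h2⟩, h3⟩ | ⟨⟨h1, h2⟩, h3⟩)
          · exact ⟨⟨h1, by omega⟩, h3⟩
          · exact ⟨⟨by omega, h2⟩, h3⟩
      have hd : Disjoint ((Icc 1 b).filter Nat.Prime) P := by
        rw [disjoint_left]
        intro p hp1 hp2
        rw [mem_filter, mem_Icc] at hp1
        have := (hPp p hp2).2.1
        omega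
      have hN1 := hC N hN
      have hb1 := hC b hb
      rw [hu, sum_union hd] at hN1
      rw [abs_le] at hN1 hb1
      linarith [hN1.1, hb1.2]
    -- bad points
    have h3 : ∑ p ∈ P, ((Bd p : ℝ) / p) * Real.log p ≤ N * Real.log 2 := by
      have ha : ∀ p ∈ P, ((Bd p : ℝ) / p) * Real.log p ≤
          1 / b * ∑ j : Fin N, if p ∣ r j then Real.log p else 0 := by
        intro p hp
        have hb2 : (b : ℝ) ≤ p := by exact_mod_cast (hPp p hp).2.1.le
        have e2 : (∑ j : Fin N, if p ∣ r j then Real.log (p : ℝ) else 0) =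
            Bd p * Real.log p := by
          rw [← sum_filter, sum_const, nsmul_eq_mul]
        rw [e2, ← mul_assoc]
        apply mul_le_mul_of_nonneg_right _ (hlp p hp)
        have hB0 : (0 : ℝ) ≤ Bd p := Nat.cast_nonneg _
        calc (Bd p : ℝ) / p ≤ Bd p / b := div_le_div_of_nonneg_left hB0 (by linarith) hb2
          _ = 1 / b * Bd p := by ring
      refine (sum_le_sum ha).trans ?_
      rw [← mul_sum, sum_comm]
      have hj : ∀ j : Fin N, (∑ p ∈ P, if p ∣ r j then Real.log (p : ℝ) else 0) ≤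
          b * Real.log 2 := by
        intro j
        have hrj := hr j
        have h4 : (∑ p ∈ P, if p ∣ r j then Real.log (p : ℝ) else 0) ≤ Real.log (r j) := by
          refine le_trans (sum_le_sum fun p hp => ?_) (part_log (r j) P)
          have hl := hlp p hp
          split_ifs with hdv
          · have h5 : 1 ≤ (r j).factorization p :=
              ((hPp p hp).1.dvd_iff_one_le_factorization (by omega)).1 hdv
            have h6 : (1 : ℝ) ≤ ((r j).factorization p : ℝ) := by exact_mod_cast h5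
            nlinarith
          · positivity
        have h5 : Real.log (r j) ≤ b * Real.log 2 := by
          rw [← Real.log_pow]
          apply Real.log_le_log (by exact_mod_cast hrj.1)
          exact_mod_cast hrj.2
        exact h4.trans h5
      calc 1 / (b : ℝ) * ∑ j : Fin N, ∑ p ∈ P, (if p ∣ r j then Real.log (p : ℝ) else 0)
          ≤ 1 / b * ∑ _j : Fin N, (b : ℝ) * Real.log 2 :=
            mul_le_mul_of_nonneg_left (sum_le_sum fun j _ => hj j) (by positivity)
        _ = N * Real.log 2 := by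
            rw [sum_const, card_univ, Fintype.card_fin, nsmul_eq_mul]
            field_simp
    -- Chebyshev
    have h4 : ∑ p ∈ P, Real.log (p : ℝ) ≤ Real.log 4 * N := by
      have h5 := Chebyshev.theta_le_log4_mul_x (x := (N : ℝ)) (by linarith)
      refine le_trans ?_ h5
      unfold Chebyshev.theta
      rw [Nat.floor_natCast]
      apply sum_le_sum_of_subset_of_nonneg
      · intro p hp
        obtain ⟨g1, g2, g3⟩ := hPp p hp
        rw [mem_filter, mem_Ioc]
        exact ⟨⟨g1.pos, g3⟩, g1⟩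
      · intro p _ _
        exact Real.log_natCast_nonneg p
    rw [e1] at h1
    have hlogdiv : Real.log ((N : ℝ) / b) = Real.log N - Real.log b :=
      Real.log_div (by linarith) (by linarith)
    rw [hlogdiv]
    have hN2 : (0 : ℝ) ≤ (N : ℝ) ^ 2 / 2 := by positivity
    have g1 := mul_le_mul_of_nonneg_left h2 hN2
    have g2 := mul_le_mul_of_nonneg_left h3 (by linarith : (0 : ℝ) ≤ N)
    have g3 := mul_le_mul_of_nonneg_left h4 (by linarith : (0 : ℝ) ≤ 3 / 2 * N)
    have g4 : (N : ℝ) ^ 2 * C ≤ (N : ℝ) ^ 2 * |C| := mul_le_mul_of_nonneg_left hC0 (by positivity)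
    nlinarith [g1, g2, g3, g4, h1]

end Pool.Agent.H537R6
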