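import Pool.Agent.H537R6.Defs2

set_option autoImplicit false

/-! Task NU2 (helper142): the final numerical inequality. -/

namespace Pool.Agent.H537R6

namespace U_NU2

lemma log_le {R : ℝ} (h : 256 ≤ R) : 8 * Real.log R ≤ R := by
  have hR : 0 < R := by linarith
  have hs : 16 ≤ Real.sqrt R := by
    rw [show (16 : ℝ) = Real.sqrt 256 by
      rw [show (256 : ℝ) = 16 ^ 2 by norm_num, Real.sqrt_sq (by norm_num)]]
    exact Real.sqrt_le_sqrt h
  have h1 : Real.log (Real.sqrt R) ≤ Real.sqrt R - 1 :=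
    Real.log_le_sub_one_of_pos (by linarith)
  have h2 : Real.log R = 2 * Real.log (Real.sqrt R) := by
    rw [Real.log_sqrt hR.le]; ring
  have h3 : Real.sqrt R * Real.sqrt R = R := Real.mul_self_sqrt hR.le
  nlinarith

lemma log2_le {N : ℕ} (hN : 1 ≤ N) : (Nat.log 2 N : ℝ) * Real.log 2 ≤ Real.log N := by
  have h1 : (2 : ℕ) ^ Nat.log 2 N ≤ N := Nat.pow_log_le_self 2 (by omega)
  have h2 : ((2 : ℝ)) ^ Nat.log 2 N ≤ N := by exact_mod_cast h1
  have h3 := Real.log_le_log (by positivity) h2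
  rwa [Real.log_pow] at h3

lemma le_log2 {b : ℕ} (hb : 1 ≤ b) : Real.log b ≤ (Nat.log 2 b : ℝ) + 1 := by
  have h1 : b < 2 ^ (Nat.log 2 b + 1) := Nat.lt_pow_succ_log_self (by norm_num) b
  have h2 : (b : ℝ) ≤ (2 : ℝ) ^ (Nat.log 2 b + 1) := by exact_mod_cast h1.le
  have hb' : (0 : ℝ) < b := by exact_mod_cast hb
  have h3 := Real.log_le_log hb' h2
  rw [Real.log_pow] at h3
  have h4 : Real.log 2 ≤ 1 := by
    have := Real.log_two_lt_d9
    linarith
  have h5 : ((Nat.log 2 b + 1 : ℕ) : ℝ) * Real.log 2 ≤ ((Nat.log 2 b + 1 : ℕ) : ℝ) * 1 :=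
    mul_le_mul_of_nonneg_left h4 (Nat.cast_nonneg _)
  push_cast at h3 h5
  linarith

end U_NU2

open U_NU2

theorem u_NU2 : S_NU2 := by
  intro c hc
  refine ⟨⌈256 + Real.exp (2 * c + 2)⌉₊ + 14, ?_⟩
  intro N b hN hb h
  have hN' : (0 : ℝ) < N := by exact_mod_cast hN
  have hb' : (0 : ℝ) < b := by exact_mod_cast hb
  have hb1 : (1 : ℝ) ≤ b := by exact_mod_cast hb
  have hN1 : (1 : ℝ) ≤ N := by exact_mod_cast hN
  have hlogN : 0 ≤ Real.log N := Real.log_nonneg hN1
  have hlogb : 0 ≤ Real.log b := Real.log_nonneg hb1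
  set l : ℕ := Nat.log 2 b with hl
  set K0 : ℕ := ⌈256 + Real.exp (2 * c + 2)⌉₊ with hK0
  have hK : 256 + Real.exp (2 * c + 2) ≤ (K0 : ℝ) := Nat.le_ceil _
  obtain ⟨R, hR⟩ : ∃ R : ℝ, R = (N : ℝ) / b := ⟨_, rfl⟩
  have hNR : (N : ℝ) = R * b := by rw [hR]; field_simp
  have hRpos : 0 < R := by rw [hR]; positivity
  have hgoal : (N : ℝ) ≤ ((K0 : ℝ) + 14) * (b * ((l : ℝ) + 1)) := by
    have hl0 : (0 : ℝ) ≤ l := Nat.cast_nonneg _
    rcases lt_or_ge R (256 + Real.exp (2 * c + 2)) with hc1 | hc1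
    · have h1 : (N : ℝ) ≤ K0 * b := by
        rw [hNR]
        exact mul_le_mul_of_nonneg_right (by linarith) hb'.le
      have h2 : (K0 : ℝ) * b ≤ ((K0 : ℝ) + 14) * (b * ((l : ℝ) + 1)) := by
        have h3 : (b : ℝ) ≤ b * ((l : ℝ) + 1) := by nlinarith
        have h4 : (0 : ℝ) ≤ K0 := Nat.cast_nonneg _
        nlinarith
      linarith
    · have hexp : 0 < Real.exp (2 * c + 2) := Real.exp_pos _
      have hlogR : 2 * c + 2 ≤ Real.log R := by
        rw [Real.le_log_iff_exp_le hRpos]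
        linarith
      have h8 := log_le (by linarith : 256 ≤ R)
      -- divide
      have hlN := log2_le hN
      have hln2 : Real.log 2 ≤ 1 := by
        have := Real.log_two_lt_d9
        linarith
      have hln2' : 0 ≤ Real.log 2 := Real.log_nonneg (by norm_num)
      have e1 : (N : ℝ) ^ 2 * (Real.log ((N : ℝ) / b) / 2 - c) =
          (N * b) * (R * (Real.log R / 2 - c)) := by
        rw [← hR, hNR]; ring
      have e2 : (N : ℝ) * Real.log N + N * (3 * b * (Nat.log 2 N + 1) * Real.log 2) ≤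
          (N * b) * (4 * Real.log N + 3) := by
        have h3 : Real.log N ≤ b * Real.log N := by nlinarith
        have h4 : 3 * (b : ℝ) * (Nat.log 2 N + 1) * Real.log 2 ≤ b * (3 * Real.log N + 3) := by
          have h5 : ((Nat.log 2 N : ℝ) + 1) * Real.log 2 ≤ Real.log N + 1 := by
            rw [add_mul, one_mul]; linarith
          calc 3 * (b : ℝ) * (Nat.log 2 N + 1) * Real.log 2
              = 3 * b * (((Nat.log 2 N : ℝ) + 1) * Real.log 2) := by ring
            _ ≤ 3 * b * (Real.log N + 1) := mul_le_mul_of_nonneg_left h5 (by positivity)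
            _ = b * (3 * Real.log N + 3) := by ring
        calc (N : ℝ) * Real.log N + N * (3 * b * (Nat.log 2 N + 1) * Real.log 2)
            ≤ N * (b * Real.log N) + N * (b * (3 * Real.log N + 3)) :=
              add_le_add (mul_le_mul_of_nonneg_left h3 hN'.le)
                (mul_le_mul_of_nonneg_left h4 hN'.le)
          _ = (N * b) * (4 * Real.log N + 3) := by ring
      rw [e1] at h
      have h6 : R * (Real.log R / 2 - c) ≤ 4 * Real.log N + 3 :=
        le_of_mul_le_mul_left (h.trans e2) (by positivity)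
      have h7 : Real.log N = Real.log R + Real.log b := by
        rw [hNR, Real.log_mul hRpos.ne' hb'.ne']
      have h9 : R * 1 ≤ R * (Real.log R / 2 - c) :=
        mul_le_mul_of_nonneg_left (by linarith) hRpos.le
      have h10 := le_log2 hb
      rw [← hl] at h10
      have h11 : R ≤ 14 * ((l : ℝ) + 1) := by linarith
      rw [hNR]
      have h12 : R * b ≤ 14 * ((l : ℝ) + 1) * b := mul_le_mul_of_nonneg_right h11 hb'.le
      have h13 : (0 : ℝ) ≤ K0 * (b * ((l : ℝ) + 1)) := by positivity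
      linarith
  have : ((N : ℕ) : ℝ) ≤ (((K0 + 14) * (b * (l + 1)) : ℕ) : ℝ) := by
    push_cast
    exact hgoal
  exact_mod_cast this

end Pool.Agent.H537R6
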