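import Pool.Agent.H537R6.Defs2

set_option autoImplicit false

namespace Pool.Agent.H537R6

open Polynomial

namespace U_PAD

/-- reduction modulo the product of the linear factors -/
theorem red {R : Type} [CommRing R] [IsDomain R] {n : ℕ} (hn : 0 < n) (ξ : Fin n → R) (Q : R[X]) :
    ∃ c : Fin n → R, ∀ i, Q.eval (ξ i) = ∑ k : Fin n, ξ i ^ (k : ℕ) * c k := by
  set M : R[X] := ∏ i : Fin n, (X - C (ξ i)) with hM
  have hmon : M.Monic := monic_prod_of_monic _ _ (fun i _ => monic_X_sub_C _)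
  have hdeg : M.natDegree = n := by
    rw [hM, natDegree_prod_of_monic _ _ (fun i _ => monic_X_sub_C _)]
    simp
  have hM1 : M ≠ 1 := by
    intro h
    rw [h, natDegree_one] at hdeg
    omega
  have hlt : (Q %ₘ M).natDegree < n := by
    have := natDegree_modByMonic_lt Q hmon hM1
    rwa [hdeg] at this
  refine ⟨fun k => (Q %ₘ M).coeff k, fun i => ?_⟩
  have hroot : M.eval (ξ i) = 0 := by
    rw [hM, eval_prod]
    exact Finset.prod_eq_zero (Finset.mem_univ i) (by simp)
  have h1 : Q.eval (ξ i) = (Q %ₘ M).eval (ξ i) := by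
    have h2 := modByMonic_add_div Q M
    conv_lhs => rw [← h2]
    rw [eval_add, eval_mul, hroot, zero_mul, add_zero]
  rw [h1, eval_eq_sum_range' hlt, Finset.sum_range]
  exact Finset.sum_congr rfl (fun k _ => mul_comm _ _)

/-- divisibility of a determinant by a Vandermonde determinant -/
theorem detdiv {R : Type} [CommRing R] [IsDomain R] {N : ℕ} (J : Finset (Fin N)) (hJ : 0 < J.card)
    (ξ : {j // j ∈ J} → R) (P : Fin N → R[X]) (s : Fin N → R) (A : Matrix (Fin N) (Fin N) R)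
    (hA : ∀ j : {j // j ∈ J}, ∀ m, A j m = s j * (P m).eval (ξ j)) :
    (Matrix.vandermonde (fun i : Fin J.card => ξ (J.equivFin.symm i))).det ∣ A.det := by
  classical
  set e1 : Fin J.card ≃ {j // j ∈ J} := J.equivFin.symm with he1
  set e : Fin J.card ⊕ {j // ¬ j ∈ J} ≃ Fin N :=
    (Equiv.sumCongr e1 (Equiv.refl _)).trans (Equiv.sumCompl (fun j => j ∈ J)) with he
  have hel : ∀ i, e (Sum.inl i) = (e1 i : Fin N) := fun i => rfl
  choose c hc using fun m => red hJ (fun i => ξ (e1 i)) (P m)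
  set V := Matrix.vandermonde (fun i : Fin J.card => ξ (e1 i)) with hV
  set D : Matrix (Fin J.card) (Fin J.card) R := Matrix.diagonal (fun i => s (e1 i)) with hD
  set Bm : Matrix (Fin J.card ⊕ {j // ¬ j ∈ J}) (Fin J.card ⊕ {j // ¬ j ∈ J}) R :=
    Matrix.of (fun a b => Sum.elim (fun k : Fin J.card => c (e b) k)
      (fun i : {j // ¬ j ∈ J} => A (i : Fin N) (e b)) a) with hBm
  have hmul : A.submatrix e e = Matrix.fromBlocks (D * V) 0 0 1 * Bm := by
    ext a b
    rw [Matrix.mul_apply, Fintype.sum_sum_type]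
    rcases a with i | i
    · simp only [Matrix.submatrix_apply, hel, Matrix.fromBlocks_apply₁₁, Matrix.fromBlocks_apply₁₂,
        Matrix.zero_apply, zero_mul, Finset.sum_const_zero, add_zero]
      rw [hA, hc, Finset.mul_sum]
      apply Finset.sum_congr rfl
      intro k _
      rw [hD, Matrix.diagonal_mul, hV, Matrix.vandermonde_apply, hBm, Matrix.of_apply, Sum.elim_inl]
      ring
    · simp only [Matrix.submatrix_apply, Matrix.fromBlocks_apply₂₁, Matrix.fromBlocks_apply₂₂,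
        Matrix.zero_apply, zero_mul, Finset.sum_const_zero, zero_add, Matrix.one_apply, ite_mul,
        one_mul, Finset.sum_ite_eq, Finset.mem_univ, if_true]
      rfl
  have hdet : A.det = (D.det * V.det) * Bm.det := by
    rw [← Matrix.det_submatrix_equiv_self e A, hmul, Matrix.det_mul,
      Matrix.det_fromBlocks_zero₂₁, Matrix.det_mul, Matrix.det_one, mul_one]
  rw [hdet]
  exact Dvd.dvd.mul_right (Dvd.intro_left _ rfl) _

end U_PAD

open U_PAD in
theorem u_PAD : S_VDM → S_PAD := by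
  intro hVDM p hp N x P s A hA hdet
  have : Fact p.Prime := ⟨hp⟩
  classical
  set J : Finset (Fin N) := Finset.univ.filter fun j => ¬ p ∣ (x j).den with hJ
  rcases Nat.eq_zero_or_pos J.card with h0 | hpos
  · rw [h0]
    simp
  have hξ : ∀ j : {j // j ∈ J}, ‖((x j : ℚ) : ℚ_[p])‖ ≤ 1 := by
    intro j
    have h := (Finset.mem_filter.mp (show (j : Fin N) ∈
      Finset.univ.filter (fun j => ¬ p ∣ (x j).den) from j.2)).2
    exact Padic.norm_rat_le_one h
  set ξ : {j // j ∈ J} → ℤ_[p] := fun j => ⟨((x j : ℚ) : ℚ_[p]), hξ j⟩ with hξd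
  have hAp : ∀ j : {j // j ∈ J}, ∀ m : Fin N, ((A j m : ℤ) : ℤ_[p]) =
      ((s j : ℕ) : ℤ_[p]) * ((P m).map (Int.castRingHom ℤ_[p])).eval (ξ j) := by
    intro j m
    apply PadicInt.ext
    have h1 := hA j m
    have h2 : (((A j m : ℤ) : ℚ) : ℚ_[p]) = ((s j * aeval (x j) (P m) : ℚ) : ℚ_[p]) := by rw [h1]
    have h3 : (((aeval (x j) (P m) : ℚ)) : ℚ_[p]) =
        eval₂ (Int.castRingHom ℚ_[p]) ((x j : ℚ) : ℚ_[p]) (P m) := by
      have h4 := hom_eval₂ (P m) (algebraMap ℤ ℚ) (Rat.castHom ℚ_[p]) (x j)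
      rw [← aeval_def] at h4
      have h5 : (Rat.castHom ℚ_[p]).comp (algebraMap ℤ ℚ) = Int.castRingHom ℚ_[p] :=
        RingHom.ext_int _ _
      rw [h5] at h4
      exact h4
    have h6 : ((((P m).map (Int.castRingHom ℤ_[p])).eval (ξ j) : ℤ_[p]) : ℚ_[p]) =
        eval₂ (Int.castRingHom ℚ_[p]) ((x j : ℚ) : ℚ_[p]) (P m) := by
      rw [eval_map]
      have h4 := hom_eval₂ (P m) (Int.castRingHom ℤ_[p]) (PadicInt.Coe.ringHom (p := p)) (ξ j)
      have h5 : (PadicInt.Coe.ringHom (p := p)).comp (Int.castRingHom ℤ_[p]) =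
          Int.castRingHom ℚ_[p] := RingHom.ext_int _ _
      rw [h5] at h4
      exact h4
    rw [PadicInt.coe_mul, h6, ← h3]
    push_cast at h2 ⊢
    exact h2
  have hdiv := detdiv J hpos ξ (fun m => (P m).map (Int.castRingHom ℤ_[p]))
    (fun j => ((s j : ℕ) : ℤ_[p])) (A.map (Int.castRingHom ℤ_[p])) (by
      intro j m
      exact hAp j m)
  have hcast : (A.map (Int.castRingHom ℤ_[p])).det = ((A.det : ℤ) : ℤ_[p]) :=
    ((Int.castRingHom ℤ_[p]).map_det A).symm
  rw [hcast] at hdiv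
  have h1 := (hVDM p J.card _).trans hdiv
  set F : ℕ := ∏ m ∈ Finset.range J.card, m.factorial with hF
  have hF0 : F ≠ 0 := Finset.prod_ne_zero_iff.mpr (fun m _ => Nat.factorial_ne_zero m)
  have h2 : F.factorization p = ∑ m ∈ Finset.range J.card, m.factorial.factorization p := by
    rw [hF, Nat.factorization_prod (fun m _ => Nat.factorial_ne_zero m), Finsupp.finsetSum_apply]
  rw [← h2]
  have h3 : p ^ (F.factorization p) ∣ F := Nat.ordProj_dvd F p
  have h4 : ((p : ℤ_[p]) ^ (F.factorization p)) ∣ ((A.det : ℤ) : ℤ_[p]) := by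
    have h5 : ((p ^ (F.factorization p) : ℕ) : ℤ_[p]) ∣ ((F : ℕ) : ℤ_[p]) := Nat.cast_dvd_cast h3
    rw [Nat.cast_pow] at h5
    exact h5.trans h1
  rw [PadicInt.pow_p_dvd_int_iff] at h4
  have h5 : p ^ (F.factorization p) ∣ A.det.natAbs := by
    rw [← Int.natCast_dvd]
    exact_mod_cast h4
  exact (hp.pow_dvd_iff_le_factorization (Int.natAbs_ne_zero.mpr hdet)).mp h5

end Pool.Agent.H537R6
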