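import Pool.Agent.H537R6.Defs2

set_option autoImplicit false

namespace Pool.Agent.H537R6

open Polynomial

namespace U_VDM

theorem isClosed_dvd (p : ℕ) [Fact p.Prime] (a : ℤ_[p]) : IsClosed {x : ℤ_[p] | a ∣ x} := by
  have h : {x : ℤ_[p] | a ∣ x} = Set.range fun c : ℤ_[p] => a * c := by
    ext x
    constructor
    · rintro ⟨c, rfl⟩
      exact ⟨c, rfl⟩
    · rintro ⟨c, rfl⟩
      exact ⟨c, rfl⟩
  rw [h]
  exact (isCompact_range (by fun_prop)).isClosed

end U_VDM

theorem u_VDM : S_VDM := by
  intro p _ n v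
  rcases n with _ | n
  · simp
  rw [Nat.prod_range_succ_factorial]
  have hcl : IsClosed {w : Fin (n + 1) → ℤ_[p] | ((n.superFactorial : ℕ) : ℤ_[p]) ∣
      (Matrix.vandermonde w).det} := by
    have hc : Continuous fun w : Fin (n + 1) → ℤ_[p] => (Matrix.vandermonde w).det := by
      apply Continuous.matrix_det
      apply continuous_matrix
      intro i j
      simp only [Matrix.vandermonde_apply]
      fun_prop
    exact (U_VDM.isClosed_dvd p _).preimage hc
  have hd : DenseRange (Pi.map fun (_ : Fin (n + 1)) => (Int.cast : ℤ → ℤ_[p])) :=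
    DenseRange.piMap fun _ => PadicInt.denseRange_intCast
  refine hd.induction_on (p := fun w => ((n.superFactorial : ℕ) : ℤ_[p]) ∣
      (Matrix.vandermonde w).det) v hcl ?_
  intro w
  have h1 := Matrix.superFactorial_dvd_vandermonde_det w
  have h2 := map_dvd (Int.castRingHom ℤ_[p]) h1
  rw [RingHom.map_det] at h2
  convert h2 using 1
  · simp
  · congr 1
    ext i j
    simp [Matrix.vandermonde_apply, Pi.map]

end Pool.Agent.H537R6
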