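import Pool.Agent.H537R6.Q1
import Pool.Agent.H537R6.U_VDM
import Pool.Agent.H537R6.U_PAD
import Pool.Agent.H537R6.U_LOG
import Pool.Agent.H537R6.U_NU2

set_option autoImplicit false

/-! Programs with rational constants: assembly (helper537). -/

namespace Pool.Agent.H537R6

open Polynomial

/-- `P` becomes integral after multiplication with a power of `T` -/
def Clear (T : ℕ) (P : ℚ[X]) : Prop :=
  ∃ (e : ℕ) (h : ℤ[X]), C ((T : ℚ) ^ e) * P = h.map (Int.castRingHom ℚ)

theorem Clear.var (T : ℕ) : Clear T X := ⟨0, Polynomial.X, by simp⟩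

theorem Clear.const {T : ℕ} {a : ℚ} (h : a.den ∣ T) : Clear T (C a) := by
  obtain ⟨u, hu⟩ := h
  refine ⟨1, C ((u : ℤ) * a.num), ?_⟩
  rw [map_C, ← C_mul]
  congr 1
  rw [pow_one, hu]
  push_cast
  have h1 : (a.den : ℚ) * a = a.num := Rat.den_mul_eq_num a
  calc (a.den : ℚ) * u * a = u * (a.den * a) := by ring
    _ = u * a.num := by rw [h1]
    _ = _ := by simp

theorem Clear.raise {T : ℕ} {P : ℚ[X]} {e : ℕ} {h : ℤ[X]}
    (hP : C ((T : ℚ) ^ e) * P = h.map (Int.castRingHom ℚ)) (d : ℕ) :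
    C ((T : ℚ) ^ (d + e)) * P = (C ((T : ℤ) ^ d) * h).map (Int.castRingHom ℚ) := by
  rw [Polynomial.map_mul, ← hP, map_C, pow_add, C_mul, mul_assoc]
  congr 2
  simp

theorem Clear.add {T : ℕ} {P Q : ℚ[X]} (hP : Clear T P) (hQ : Clear T Q) : Clear T (P + Q) := by
  obtain ⟨e, h, hh⟩ := hP
  obtain ⟨e', h', hh'⟩ := hQ
  refine ⟨e' + e, C ((T : ℤ) ^ e') * h + C ((T : ℤ) ^ e) * h', ?_⟩
  rw [mul_add, Polynomial.map_add, ← Clear.raise hh e', ← Clear.raise hh' e, add_comm e e']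

theorem Clear.sub {T : ℕ} {P Q : ℚ[X]} (hP : Clear T P) (hQ : Clear T Q) : Clear T (P - Q) := by
  obtain ⟨e, h, hh⟩ := hP
  obtain ⟨e', h', hh'⟩ := hQ
  refine ⟨e' + e, C ((T : ℤ) ^ e') * h - C ((T : ℤ) ^ e) * h', ?_⟩
  rw [mul_sub, Polynomial.map_sub, ← Clear.raise hh e', ← Clear.raise hh' e, add_comm e e']

theorem Clear.mul {T : ℕ} {P Q : ℚ[X]} (hP : Clear T P) (hQ : Clear T Q) : Clear T (P * Q) := by
  obtain ⟨e, h, hh⟩ := hP
  obtain ⟨e', h', hh'⟩ := hQ
  refine ⟨e + e', h * h', ?_⟩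
  rw [Polynomial.map_mul, ← hh, ← hh', pow_add, C_mul]
  ring

theorem Clear.pow {T : ℕ} {P : ℚ[X]} (hP : Clear T P) : ∀ n : ℕ, Clear T (P ^ n)
  | 0 => ⟨0, 1, by simp⟩
  | n + 1 => by
    rw [pow_succ]
    exact (Clear.pow hP n).mul hP

theorem Clear.prod {T : ℕ} (f : ℕ → ℚ[X]) : ∀ n : ℕ, (∀ i < n, Clear T (f i)) →
    Clear T (∏ i ∈ Finset.range n, f i)
  | 0, _ => ⟨0, 1, by simp⟩
  | n + 1, h => by
    rw [Finset.prod_range_succ]
    exact (Clear.prod f n fun i hi => h i (by omega)).mul (h n (by omega))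

theorem clear_slp {T L : ℕ} {g : ℕ → ℚ[X]} (hg : IsSLPQ L g)
    (hT : ∀ k ≤ L, ∀ a : ℚ, g k = C a → a.den ∣ T) : ∀ k ≤ L, Clear T (g k) := by
  intro k
  induction k using Nat.strong_induction_on with
  | _ k ih =>
    intro hk
    rcases hg k hk with h1 | ⟨a, h1⟩ | ⟨i, hi, j, hj, h1⟩
    · rw [h1]
      exact Clear.var T
    · rw [h1]
      exact Clear.const (hT k hk a h1)
    · have hi0 := ih i hi (by omega)
      have hj0 := ih j hj (by omega)
      rcases h1 with h1 | h1 | h1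
      · rw [h1]
        exact hi0.add hj0
      · rw [h1]
        exact hi0.sub hj0
      · rw [h1]
        exact hi0.mul hj0

theorem exists_XQ {L : ℕ} {g : ℕ → ℚ[X]} (hg : IsSLPQ L g) (hL : (g L).natDegree ≠ 0) :
    ∃ k ≤ L, g k = X := by
  by_contra hcon
  push Not at hcon
  have hall : ∀ k ≤ L, (g k).natDegree = 0 := by
    intro k
    induction k using Nat.strong_induction_on with
    | _ k ih =>
      intro hk
      rcases hg k hk with h1 | ⟨a, h1⟩ | ⟨i, hi, j, hj, h1⟩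
      · exact absurd h1 (hcon k hk)
      · rw [h1]
        exact natDegree_C a
      · have hi0 := ih i hi (by omega)
        have hj0 := ih j hj (by omega)
        rcases h1 with h1 | h1 | h1
        · rw [h1]
          have := natDegree_add_le (g i) (g j)
          omega
        · rw [h1]
          have := natDegree_sub_le (g i) (g j)
          omega
        · rw [h1]
          have := natDegree_mul_le (p := g i) (q := g j)
          omega
  exact hL (hall L le_rfl)

/-- divisibility at the primes not dividing `T` -/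
theorem padQ {p T N : ℕ} (hp : p.Prime) (hpT : ¬ p ∣ T) (hT : T ≠ 0) (x : Fin N → ℚ)
    (P : ℕ → ℚ[X]) (s : Fin N → ℕ) (A : Matrix (Fin N) (Fin N) ℤ)
    (hA : ∀ j (m : Fin N), (A j m : ℚ) = s j * (P m).eval (x j)) (hA0 : A.det ≠ 0)
    (hP : ∀ m < N, Clear T (P m)) :
    ∑ m ∈ Finset.range (Finset.univ.filter fun j => ¬ p ∣ (x j).den).card,
      m.factorial.factorization p ≤ A.det.natAbs.factorization p := by
  have hP' : ∀ m, ∃ (e : ℕ) (h : ℤ[X]), m < N →
      C ((T : ℚ) ^ e) * P m = h.map (Int.castRingHom ℚ) := by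
    intro m
    by_cases hm : m < N
    · obtain ⟨e, h, hh⟩ := hP m hm
      exact ⟨e, h, fun _ => hh⟩
    · exact ⟨0, 0, fun h => absurd h hm⟩
  choose e h hh using hP'
  have hA' : ∀ j (m : Fin N), ((A * Matrix.diagonal fun m : Fin N => (T : ℤ) ^ e m) j m : ℚ) =
      s j * aeval (x j) (h m) := by
    intro j m
    rw [Matrix.mul_diagonal]
    push_cast
    rw [hA j m, aeval_def, eval₂_eq_eval_map]
    have h1 := hh m m.2
    have h2 : ((h m).map (algebraMap ℤ ℚ)).eval (x j) = (T : ℚ) ^ e m * (P m).eval (x j) := by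
      have h3 : algebraMap ℤ ℚ = Int.castRingHom ℚ := rfl
      rw [h3, ← h1, eval_mul, eval_C]
    rw [h2]
    ring
  have hdet : (A * Matrix.diagonal fun m : Fin N => (T : ℤ) ^ e m).det =
      A.det * ((T ^ (∑ m : Fin N, e m) : ℕ) : ℤ) := by
    rw [Matrix.det_mul, Matrix.det_diagonal, Finset.prod_pow_eq_pow_sum]
    push_cast
    rfl
  have hTz : (T : ℕ) ^ (∑ m : Fin N, e m) ≠ 0 := pow_ne_zero _ hT
  have hdet0 : (A * Matrix.diagonal fun m : Fin N => (T : ℤ) ^ e m).det ≠ 0 := by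
    rw [hdet]
    exact mul_ne_zero hA0 (by exact_mod_cast hTz)
  have h4 := u_PAD u_VDM p hp N x h s _ hA' hdet0
  refine h4.trans ?_
  rw [hdet, Int.natAbs_mul, Int.natAbs_natCast,
    Nat.factorization_mul (Int.natAbs_ne_zero.2 hA0) hTz, Nat.factorization_pow]
  have h5 : T.factorization p = 0 := Nat.factorization_eq_zero_of_not_dvd hpT
  simp [h5]

end Pool.Agent.H537R6
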