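import Pool.Agent.H537R6.Q2

set_option autoImplicit false

/-! Programs with rational constants: the theorem (helper537). -/

namespace Pool.Agent.H537R6

open Polynomial

theorem Tprod_le {β : ℕ} (t : ℕ → ℕ) : ∀ k : ℕ, (∀ j < k, t j ≤ β) →
    (∏ j ∈ Finset.range k, t j) ≤ β ^ k
  | 0, _ => by simp
  | k + 1, h => by
    rw [Finset.prod_range_succ, pow_succ]
    exact Nat.mul_le_mul (Tprod_le t k fun j hj => h j (by omega)) (h k (by omega))

theorem finQ : ∃ K : ℕ, ∀ (L b : ℕ) (g : ℕ → ℚ[X]) (S : Finset ℚ), IsSLPQ L g → g L ≠ 0 →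
    1 ≤ b → (∀ x ∈ S, (g L).eval x = 0) →
    (∀ x ∈ S, ∀ k ≤ L, ((g k).eval x).num.natAbs ≤ 2 ^ b ∧ ((g k).eval x).den ≤ 2 ^ b) →
    S.card ≤ K * (b * (L + 2) * (Nat.log 2 (b * (L + 2)) + 1)) := by
  obtain ⟨c, hc, hLOG⟩ := u_LOG
  obtain ⟨K, hK⟩ := u_NU2 c hc
  refine ⟨K, fun L b g S hg hgL hb hroot hht => ?_⟩
  obtain ⟨N, hN⟩ : ∃ N : ℕ, N = S.card := ⟨_, rfl⟩
  rw [← hN]
  rcases Nat.eq_zero_or_pos N with h0 | hN0
  · rw [h0]
    exact Nat.zero_le _
  have hdeg : N ≤ (g L).natDegree := by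
    have h1 : S ⊆ (g L).roots.toFinset := by
      intro x hx
      rw [Multiset.mem_toFinset, mem_roots hgL, IsRoot.def]
      exact hroot x hx
    have h2 := (Finset.card_le_card h1).trans ((Multiset.toFinset_card_le _).trans (card_roots' _))
    omega
  obtain ⟨x0, hx0⟩ : S.Nonempty := by
    rw [← Finset.card_pos]
    omega
  obtain ⟨kX, hkX, hX⟩ := exists_XQ hg (by omega)
  -- the denominators of the constants
  classical
  obtain ⟨t, ht⟩ : ∃ t : ℕ → ℕ, t = fun k => if ∃ a : ℚ, g k = C a then ((g k).coeff 0).den else 1 :=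
    ⟨_, rfl⟩
  have ht1 : ∀ k, 1 ≤ t k := by
    intro k
    rw [ht]
    simp only
    split_ifs
    · exact ((g k).coeff 0).den_pos
    · exact le_rfl
  have htle : ∀ k ≤ L, t k ≤ 2 ^ b := by
    intro k hk
    rw [ht]
    simp only
    split_ifs with h1
    · obtain ⟨a, ha⟩ := h1
      have h2 := (hht x0 hx0 k hk).2
      rw [ha, eval_C] at h2
      rw [ha, coeff_C_zero]
      exact h2
    · exact Nat.one_le_two_pow
  obtain ⟨T, hT⟩ : ∃ T : ℕ, T = ∏ k ∈ Finset.range (L + 1), t k := ⟨_, rfl⟩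
  have hT0 : T ≠ 0 := by
    rw [hT]
    exact Finset.prod_ne_zero_iff.2 fun k _ => by
      have := ht1 k
      omega
  have hTle : T ≤ 2 ^ (b * (L + 1)) := by
    rw [hT, pow_mul]
    exact Tprod_le t (L + 1) fun j hj => htle j (by omega)
  have hTd : ∀ k ≤ L, ∀ a : ℚ, g k = C a → a.den ∣ T := by
    intro k hk a ha
    have h1 : t k = a.den := by
      rw [ht]
      simp only
      rw [if_pos ⟨a, ha⟩, ha, coeff_C_zero]
    rw [← h1, hT]
    exact Finset.dvd_prod_of_mem t (Finset.mem_range.2 (by omega))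
  have hclear := clear_slp hg hTd
  obtain ⟨I, hI⟩ : ∃ I : ℕ, I = Nat.log 2 N := ⟨_, rfl⟩
  have hI1 : 2 ^ I ≤ N := by
    rw [hI]
    exact Nat.pow_log_le_self 2 (by omega)
  have hI2 : N < 2 ^ (I + 1) := by
    rw [hI]
    exact Nat.lt_pow_succ_log_self (by norm_num) N
  have hsc : ∀ i, ∃ k ≤ L, i ≤ I → 2 ^ i ≤ (g k).natDegree ∧ (g k).natDegree < 2 ^ (i + 1) := by
    intro i
    by_cases hi : i ≤ I
    · have h1 : 2 ^ i ≤ (g L).natDegree :=
        (Nat.pow_le_pow_right (by norm_num) hi).trans (hI1.trans hdeg)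
      obtain ⟨k, hk, h2⟩ := sclQ L g hg i h1
      exact ⟨k, hk, fun _ => h2⟩
    · exact ⟨0, Nat.zero_le _, fun h => absurd h hi⟩
  choose kf hkf hkd using hsc
  have hrad := u_RAD I (fun i => (g (kf i)).natDegree) hkd
  have hrad' : ∀ m, ∃ q : ℕ → ℕ, m < N → (∀ i, q i ≤ 3) ∧
      ∑ i ∈ Finset.range (I + 1), q i * (g (kf i)).natDegree = m := by
    intro m
    by_cases hm : m < N
    · obtain ⟨q, hq⟩ := hrad m (by
        have : 2 ^ (I + 1) ≤ 2 ^ (I + 2) := Nat.pow_le_pow_right (by norm_num) (by omega)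
        omega)
      exact ⟨q, fun _ => hq⟩
    · exact ⟨0, fun h => absurd h hm⟩
  choose q hq using hrad'
  obtain ⟨x, hx⟩ : ∃ x : Fin N → ℚ, x = fun i => ((S.equivFin.symm (Fin.cast hN i) : S) : ℚ) :=
    ⟨_, rfl⟩
  have hxS : ∀ i, x i ∈ S := by
    intro i
    rw [hx]
    exact (S.equivFin.symm (Fin.cast hN i)).2
  have hxinj : Function.Injective x := by
    intro i j hij
    rw [hx] at hij
    have h1 : S.equivFin.symm (Fin.cast hN i) = S.equivFin.symm (Fin.cast hN j) :=
      Subtype.ext hij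
    have h2 := S.equivFin.symm.injective h1
    exact Fin.cast_injective hN h2
  obtain ⟨s, A, hA, hA0, hAle⟩ := matQ N I b x (fun i => g (kf i)) q hxinj
    (fun i hi h0 => by
      have h1 := (hkd i hi).1
      rw [h0, natDegree_zero] at h1
      have h2 : 0 < 2 ^ i := by positivity
      omega)
    (fun m hm => hq m hm)
    (fun j i hi => hht (x j) (hxS j) (kf i) (hkf i))
  have hlog := hLOG N (b * (L + 2)) A.det.natAbs (fun j => (x j).den * T) hN0
    (Nat.mul_pos hb (by omega)) (Int.natAbs_ne_zero.2 hA0)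
    (fun j => ⟨Nat.mul_pos (x j).den_pos (Nat.pos_of_ne_zero hT0), by
      have h1 := (hht (x j) (hxS j) kX hkX).2
      rw [hX, eval_X] at h1
      have h2 : b * (L + 2) = b + b * (L + 1) := by ring
      rw [h2, pow_add]
      exact Nat.mul_le_mul h1 hTle⟩)
    (fun p hp => by
      by_cases hpT : p ∣ T
      · have h1 : (Finset.univ.filter fun j : Fin N => ¬ p ∣ (x j).den * T) = ∅ := by
          refine Finset.filter_eq_empty_iff.2 fun j _ => ?_
          rw [not_not]
          exact hpT.mul_left _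
        rw [h1]
        simp
      · have h1 : (Finset.univ.filter fun j : Fin N => ¬ p ∣ (x j).den * T) =
            (Finset.univ.filter fun j : Fin N => ¬ p ∣ (x j).den) := by
          refine Finset.filter_congr fun j _ => ?_
          rw [hp.dvd_mul]
          tauto
        rw [h1]
        exact padQ hp hpT hT0 x (fun m => ∏ i ∈ Finset.range (I + 1), (g (kf i)) ^ (q m i)) s A
          (fun j m => hA j m) hA0 (fun m _ => Clear.prod _ _ fun i _ => (hclear _ (hkf i)).pow _))
  refine hK N (b * (L + 2)) hN0 (Nat.mul_pos hb (by omega)) (hlog.trans ?_)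
  have hpos : 0 < ((A.det.natAbs : ℕ) : ℝ) := by
    have := Int.natAbs_pos.2 hA0
    exact_mod_cast this
  have h1 : ((A.det.natAbs : ℕ) : ℝ) ≤ (N.factorial : ℝ) * (2 ^ (3 * b * (I + 1))) ^ N := by
    exact_mod_cast hAle
  refine (Real.log_le_log hpos h1).trans ?_
  have hfac : (N.factorial : ℝ) ≠ 0 := by exact_mod_cast N.factorial_ne_zero
  rw [Real.log_mul hfac (by positivity), Real.log_pow, Real.log_pow]
  have h3 : Real.log (N.factorial : ℝ) ≤ N * Real.log N := by
    rw [← Real.log_pow]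
    refine Real.log_le_log (by exact_mod_cast N.factorial_pos) ?_
    exact_mod_cast Nat.factorial_le_pow N
  rw [← hI]
  have h4 : (N : ℝ) * (((3 * b * (I + 1) : ℕ) : ℝ) * Real.log 2) ≤
      N * (3 * ((b * (L + 2) : ℕ) : ℝ) * (I + 1) * Real.log 2) := by
    refine mul_le_mul_of_nonneg_left ?_ (by positivity)
    refine mul_le_mul_of_nonneg_right ?_ (Real.log_nonneg (by norm_num))
    push_cast
    have h5 : (b : ℝ) ≤ b * (L + 2) := by
      have h6 : (0 : ℝ) ≤ b := by positivity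
      have h7 : (0 : ℝ) ≤ L := by positivity
      nlinarith
    have h8 : (0 : ℝ) ≤ (I : ℝ) + 1 := by positivity
    nlinarith [mul_le_mul_of_nonneg_right h5 h8]
  linarith

end Pool.Agent.H537R6
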