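import Pool.Agent.H537R6.Defs

set_option autoImplicit false

namespace Pool.Agent.H537R6

open Polynomial

theorem t_BAS : S_BAS := by
  intro n e N T Fk M hT h0 hg hM hl hN
  have hpos : ∀ k ≤ n, 1 ≤ (Fk k).natDegree := by
    intro k
    induction k with
    | zero => intro _; omega
    | succ k ih =>
      intro hk
      have h1 := ih (by omega)
      have h2 := (hg k (by omega)).1
      omega
  have key : ∀ m : ℕ, m < N → ∃ W : ℚ[X], W.natDegree = m ∧
      (∃ s : ℕ, ∃ l : ℤ, l ≠ 0 ∧ (T : ℚ) ^ s * W.leadingCoeff = l) ∧
      ∀ (B : ℤ) (x : ℚ), 1 ≤ B →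
        (∀ k ≤ n, ∃ y : ℤ, (M k : ℚ) * (Fk k).eval x = y ∧ |y| ≤ B) →
        ∃ w : ℤ, W.eval x = w ∧ (m = 0 → |w| ≤ 1) ∧ |w| ≤ B ^ ((e - 1) * (Nat.log 2 m + 1)) := by
    intro m
    induction m using Nat.strong_induction_on with
    | _ m ih =>
      intro hmN
      rcases Nat.eq_zero_or_pos m with hm | hm
      · subst hm
        refine ⟨1, natDegree_one, ⟨0, 1, one_ne_zero, by simp⟩, ?_⟩
        intro B x hB _
        refine ⟨1, by simp, fun _ => by simp, ?_⟩
        rw [abs_one]
        exact one_le_pow₀ hB
      · -- the largest k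
        obtain ⟨k, hk, hkn⟩ : ∃ k, k = Nat.findGreatest (fun k => (Fk k).natDegree ≤ m) n ∧ k ≤ n :=
          ⟨_, rfl, Nat.findGreatest_le n⟩
        have hEk : (Fk k).natDegree ≤ m := by
          rw [hk]
          exact Nat.findGreatest_spec (P := fun k => (Fk k).natDegree ≤ m) (Nat.zero_le n) (by
            show (Fk 0).natDegree ≤ m
            omega)
        have hkn' : k < n := by
          rcases Nat.lt_or_ge k n with h | h
          · exact h
          · exfalso
            have : k = n := le_antisymm hkn h
            rw [this] at hEk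
            omega
        have hEk1 : m < (Fk (k + 1)).natDegree := by
          by_contra hcon
          have h1 := Nat.le_findGreatest (P := fun k => (Fk k).natDegree ≤ m) (m := k + 1) (n := n)
            (by omega) (by omega)
          omega
        obtain ⟨E, hE⟩ : ∃ E, E = (Fk k).natDegree := ⟨_, rfl⟩
        have hE1 : 1 ≤ E := by rw [hE]; exact hpos k hkn
        have hmE : m < e * E := by
          rw [hE]; exact lt_of_lt_of_le hEk1 (hg k hkn').2
        obtain ⟨q, hq⟩ : ∃ q, q = m / E := ⟨_, rfl⟩
        obtain ⟨m', hm'⟩ : ∃ m', m' = m % E := ⟨_, rfl⟩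
        have hdm : E * q + m' = m := by rw [hq, hm']; exact Nat.div_add_mod m E
        have hm'E : m' < E := by rw [hm']; exact Nat.mod_lt _ (by omega)
        have hEm : E ≤ m := by rw [hE]; exact hEk
        have hq1 : 1 ≤ q := by
          rw [hq]; exact Nat.div_pos hEm (by omega)
        have hqe : q < e := by
          by_contra hcon
          have : e * E ≤ E * q := by
            calc e * E ≤ q * E := Nat.mul_le_mul_right _ (by omega)
              _ = E * q := Nat.mul_comm _ _
          omega
        obtain ⟨W, hW1, ⟨s', l', hl'0, hl'⟩, hW3⟩ := ih m' (by omega) (by omega)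
        obtain ⟨s, l, hl0, hls⟩ := hl k hkn (by omega)
        have hMk : (M k : ℚ) ≠ 0 := by
          have := hM k hkn
          positivity
        have hFk : Fk k ≠ 0 := by
          intro h
          rw [h, natDegree_zero] at hE
          omega
        have hW0 : W ≠ 0 := by
          intro h
          rw [h] at hl'
          simp only [leadingCoeff_zero, mul_zero] at hl'
          exact hl'0 (by exact_mod_cast hl'.symm)
        have hCF : C (M k : ℚ) * Fk k ≠ 0 := mul_ne_zero (by simpa using hMk) hFk
        refine ⟨(C (M k : ℚ) * Fk k) ^ q * W, ?_, ⟨s * q + s', (M k : ℤ) ^ q * l ^ q * l', ?_, ?_⟩, ?_⟩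
        · rw [natDegree_mul (pow_ne_zero _ hCF) hW0, natDegree_pow, natDegree_C_mul hMk, hW1, ← hE,
            Nat.mul_comm q E]
          exact hdm
        · have h1 : (M k : ℤ) ≠ 0 := by
            have := hM k hkn
            positivity
          exact mul_ne_zero (mul_ne_zero (pow_ne_zero _ h1) (pow_ne_zero _ hl0)) hl'0
        · rw [leadingCoeff_mul, leadingCoeff_pow, leadingCoeff_mul, leadingCoeff_C]
          push_cast
          rw [← hls, ← hl']
          ring
        · intro B x hB hx
          obtain ⟨y, hy1, hy2⟩ := hx k hkn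
          obtain ⟨w, hw1, hw2, hw3⟩ := hW3 B x hB hx
          refine ⟨y ^ q * w, ?_, fun h => by omega, ?_⟩
          · rw [eval_mul, eval_pow, eval_mul, eval_C, hy1, hw1]
            push_cast
            ring
          · rw [abs_mul, abs_pow]
            have hyq : |y| ^ q ≤ B ^ (e - 1) :=
              (pow_le_pow_left₀ (abs_nonneg _) hy2 q).trans (pow_le_pow_right₀ hB (by omega))
            rcases Nat.eq_zero_or_pos m' with h | h
            · calc |y| ^ q * |w| ≤ B ^ (e - 1) * 1 :=
                    mul_le_mul hyq (hw2 h) (abs_nonneg _) (by positivity)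
                _ = B ^ (e - 1) := mul_one _
                _ ≤ B ^ ((e - 1) * (Nat.log 2 m + 1)) :=
                    pow_le_pow_right₀ hB (Nat.le_mul_of_pos_right _ (by omega))
            · have h2 : 2 * m' ≤ m := by
                have : E * 1 ≤ E * q := Nat.mul_le_mul_left _ hq1
                omega
              have h3 : Nat.log 2 m' + 1 ≤ Nat.log 2 m := by
                calc Nat.log 2 m' + 1 = Nat.log 2 (m' * 2) := (Nat.log_mul_base (by norm_num) (by omega)).symm
                  _ ≤ Nat.log 2 m := Nat.log_mono_right (by omega)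
              calc |y| ^ q * |w| ≤ B ^ (e - 1) * B ^ ((e - 1) * (Nat.log 2 m' + 1)) :=
                    mul_le_mul hyq hw3 (abs_nonneg _) (by positivity)
                _ = B ^ ((e - 1) * (Nat.log 2 m' + 1 + 1)) := by rw [← pow_add]; ring_nf
                _ ≤ B ^ ((e - 1) * (Nat.log 2 m + 1)) :=
                    pow_le_pow_right₀ hB (Nat.mul_le_mul_left _ (by omega))
  refine ⟨fun m => if h : m < N then Classical.choose (key m h) else 0, ?_⟩
  intro m hm
  simp only [dif_pos hm]
  obtain ⟨h1, h2, h3⟩ := Classical.choose_spec (key m hm)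
  refine ⟨h1, h2, ?_⟩
  intro B x hB hx
  obtain ⟨w, hw1, _, hw3⟩ := h3 B x hB hx
  exact ⟨w, hw1, hw3⟩

end Pool.Agent.H537R6
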