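import Pool.Agent.H537R6.Defs

set_option autoImplicit false

/-! Bounded heights at roots (helper323). -/

namespace Pool.Agent.H537R6

open Polynomial

namespace T_BD

/-- Iterated floor roots. -/
def Mr (a : ℕ → ℕ) (n : ℕ) : ℕ → ℕ
  | 0 => 1
  | i + 1 => Nat.floorRoot 2 (a (n - 1 - i) ^ 2 * Mr a n i)

theorem Mr_step (a : ℕ → ℕ) (n k : ℕ) (hk : k < n) :
    Mr a n (n - k) = Nat.floorRoot 2 (a k ^ 2 * Mr a n (n - (k + 1))) := by
  obtain ⟨i, hi⟩ : ∃ i, n - k = i + 1 := ⟨n - k - 1, by omega⟩
  have h1 : n - 1 - i = k := by omega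
  have h2 : n - (k + 1) = i := by omega
  rw [hi, h2, Mr, h1]

/-- Descending induction. -/
theorem desc {n : ℕ} {P : ℕ → Prop} (h0 : P n) (hs : ∀ k < n, P (k + 1) → P k) :
    ∀ k ≤ n, P k := by
  have key : ∀ i ≤ n, P (n - i) := by
    intro i
    induction i with
    | zero => intro _; simpa using h0
    | succ i ih =>
      intro hi
      apply hs _ (by omega)
      have h2 : n - (i + 1) + 1 = n - i := by omega
      rw [h2]
      exact ih (by omega)
  intro k hk
  have := key (n - k) (by omega)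
  rwa [Nat.sub_sub_self hk] at this

end T_BD

open T_BD in
/-- BD -/
theorem t_BD : S_DEN → S_ESC → S_BD := by
  intro hDEN hESC n e b h c hg
  set a : ℕ → ℕ := fun k => (h k).leadingCoeff.natAbs with ha
  set M : ℕ → ℕ := fun k => Mr a n (n - k) with hM
  have ha1 : ∀ k < n, 1 ≤ a k ∧ a k ≤ 2 ^ b := by
    intro k hk
    have h1 := (hg k hk).two_le
    have h2 := (hg k hk).coeff_le (h k).natDegree
    constructor
    · rw [ha]
      have h3 : (h k).leadingCoeff ≠ 0 := by
        rw [Polynomial.leadingCoeff_ne_zero]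
        rintro h4
        rw [h4, Polynomial.natDegree_zero] at h1
        omega
      exact Nat.one_le_iff_ne_zero.2 (Int.natAbs_ne_zero.2 h3)
    · change ((h k).coeff (h k).natDegree).natAbs ≤ 2 ^ b
      zify
      exact h2
  have hMn : M n = 1 := by
    simp [hM, Mr]
  have hMs : ∀ k < n, M k = Nat.floorRoot 2 (a k ^ 2 * M (k + 1)) := fun k hk => Mr_step a n k hk
  have hM0 : ∀ k ≤ n, 1 ≤ M k ∧ M k ≤ 2 ^ (2 * b) := by
    apply desc
    · rw [hMn]
      exact ⟨le_refl _, Nat.one_le_two_pow⟩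
    · intro k hk ih
      have h1 : a k ^ 2 * M (k + 1) ≠ 0 := by
        have := (ha1 k hk).1
        have := ih.1
        positivity
      have h2 := Nat.floorRoot_pow_dvd (n := 2) (a := a k ^ 2 * M (k + 1))
      rw [← hMs k hk] at h2
      constructor
      · rw [hMs k hk]
        exact Nat.one_le_iff_ne_zero.2 (Nat.floorRoot_ne_zero.2 ⟨by norm_num, h1⟩)
      · have h3 := Nat.le_of_dvd (Nat.pos_of_ne_zero h1) h2
        have h4 : a k ^ 2 * M (k + 1) ≤ (2 ^ b) ^ 2 * 2 ^ (2 * b) :=
          Nat.mul_le_mul (Nat.pow_le_pow_left (ha1 k hk).2 2) ih.2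
        have h5 : M k ^ 2 ≤ (2 ^ (2 * b)) ^ 2 := by
          refine h3.trans (h4.trans (le_of_eq ?_))
          ring
        exact (Nat.pow_le_pow_iff_left (by norm_num)).1 h5
  refine ⟨M, hM0, fun x hx => ?_⟩
  have hF : ∀ k, (F h c (k + 1)).eval x = (G (h k) (c k)).eval ((F h c k).eval x) := by
    intro k
    rw [F, Polynomial.eval_comp]
  have hden : ∀ k ≤ n, ((F h c k).eval x).den ∣ M k := by
    apply desc
    · rw [hx, hMn]
      simp
    · intro k hk ih
      have h1 := hDEN (h k) (c k) ((F h c k).eval x) (hg k hk).two_le (hg k hk).c_pos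
      rw [← hF] at h1
      rw [hMs k hk, ← Nat.pow_dvd_iff_dvd_floorRoot]
      exact h1.trans (mul_dvd_mul_left _ ih)
  have hbig : ∀ k ≤ n, |(F h c k).eval x| < ((e : ℚ) + 1) * 2 ^ b := by
    apply desc
    · rw [hx, abs_zero]
      positivity
    · intro k hk ih
      by_contra hcon
      push Not at hcon
      have h1 := hESC e b (h k) (c k) (hg k hk) _ hcon
      rw [← hF] at h1
      exact absurd (hcon.trans h1) (not_le.2 ih)
  intro k hk
  obtain ⟨t, ht⟩ := hden k hk
  set z := (F h c k).eval x with hz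
  refine ⟨z.num * t, ?_, ?_⟩
  · rw [ht]
    have h1 : (z.den : ℚ) * z = z.num := by
      rw [mul_comm]
      exact Rat.mul_den_eq_num z
    push_cast
    rw [← h1]
    ring
  · have h1 : ((z.num * t : ℤ) : ℚ) = (M k : ℚ) * z := by
      rw [ht]
      have h1 : (z.den : ℚ) * z = z.num := by
        rw [mul_comm]
        exact Rat.mul_den_eq_num z
      push_cast
      rw [← h1]
      ring
    have h2 : |((z.num * t : ℤ) : ℚ)| ≤ ((e : ℚ) + 1) * 2 ^ (3 * b) := by
      rw [h1, abs_mul, Nat.abs_cast]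
      have h3 := (hbig k hk).le
      have h4 : (M k : ℚ) ≤ 2 ^ (2 * b) := by exact_mod_cast (hM0 k hk).2
      calc (M k : ℚ) * |z| ≤ 2 ^ (2 * b) * (((e : ℚ) + 1) * 2 ^ b) := by
            apply mul_le_mul h4 h3 (abs_nonneg _) (by positivity)
        _ = ((e : ℚ) + 1) * 2 ^ (3 * b) := by
            have : (2 : ℚ) ^ (3 * b) = 2 ^ (2 * b) * 2 ^ b := by
              rw [← pow_add]
              congr 1
              ring
            rw [this]
            ring
    exact_mod_cast h2

end Pool.Agent.H537R6
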