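import Pool.Agent.H537R6.Defs

set_option autoImplicit false

/-! Task COP (helper408). -/

namespace Pool.Agent.H537R6

open Finset

namespace T_COP

lemma log_eq (n : ℕ) (U : Finset ℕ) (hU : n.primeFactors ⊆ U) :
    Real.log n = ∑ p ∈ U, (n.factorization p : ℝ) * Real.log p := by
  rw [Real.log_nat_eq_sum_factorization, Finsupp.sum, Nat.support_factorization]
  refine Finset.sum_subset hU fun p _ hp => ?_
  have : n.factorization p = 0 := by
    rw [← Nat.support_factorization] at hp
    exact Finsupp.notMem_support_iff.mp hp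
  rw [this]
  simp

lemma key (A P s D : ℕ) (hP : 1 ≤ P) (hD : D ≠ 0) (h : A ∣ P ^ s * D) :
    Real.log A - ∑ p ∈ P.primeFactors, (A.factorization p : ℝ) * Real.log p ≤ Real.log D := by
  set U := A.primeFactors ∪ (P.primeFactors ∪ D.primeFactors) with hU
  have hA : A.primeFactors ⊆ U := subset_union_left
  have hPU : P.primeFactors ⊆ U := subset_union_left.trans subset_union_right
  have hDU : D.primeFactors ⊆ U := subset_union_right.trans subset_union_right
  have hP0 : P ≠ 0 := by omega
  have hne : P ^ s * D ≠ 0 := mul_ne_zero (pow_ne_zero _ hP0) hD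
  have hle := (Nat.factorization_le_iff_dvd (fun h0 => hne (by rw [h0, zero_dvd_iff] at h; exact h)) hne).mpr h
  have e1 : ∑ p ∈ P.primeFactors, (A.factorization p : ℝ) * Real.log p =
      ∑ p ∈ U, if p ∈ P.primeFactors then (A.factorization p : ℝ) * Real.log p else 0 := by
    rw [← Finset.sum_filter]
    refine Finset.sum_congr ?_ fun _ _ => rfl
    ext p
    simp only [mem_filter]
    exact ⟨fun h => ⟨hPU h, h⟩, fun h => h.2⟩
  rw [log_eq A U hA, log_eq D U hDU, e1, ← Finset.sum_sub_distrib]
  refine Finset.sum_le_sum fun p _ => ?_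
  have hl : 0 ≤ Real.log p := Real.log_natCast_nonneg p
  have hnn : 0 ≤ (D.factorization p : ℝ) * Real.log p := by positivity
  by_cases hp : p ∈ P.primeFactors
  · rw [if_pos hp, sub_self]
    exact hnn
  · rw [if_neg hp, sub_zero]
    have hPp : P.factorization p = 0 := by
      rw [← Nat.support_factorization] at hp
      exact Finsupp.notMem_support_iff.mp hp
    have h1 := hle p
    rw [Nat.factorization_mul (pow_ne_zero _ hP0) hD, Nat.factorization_pow] at h1
    simp only [Finsupp.coe_add, Finsupp.coe_smul, Pi.add_apply, Pi.smul_apply, smul_eq_mul, hPp,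
      mul_zero, zero_add] at h1
    exact mul_le_mul_of_nonneg_right (by exact_mod_cast h1) hl

end T_COP

theorem t_COP : S_COP := by
  intro N P s D hP hD h
  have hd : (∏ m ∈ Finset.range N, m.factorial) ∣ P ^ s * D.natAbs := by
    have h1 := Int.natAbs_dvd_natAbs.mpr h
    rw [Int.natAbs_mul, Int.natAbs_pow, Int.natAbs_natCast, Int.natAbs_natCast] at h1
    exact h1
  have h1 := T_COP.key _ P s D.natAbs hP (Int.natAbs_ne_zero.mpr hD) hd
  refine le_trans (le_of_eq ?_) h1
  rw [Finset.sum_sub_distrib]
  congr 1
  · push_cast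
    rw [Real.log_prod]
    intro m _
    positivity
  · rw [Finset.sum_comm]
    refine Finset.sum_congr rfl fun p _ => ?_
    rw [Nat.factorization_prod (fun m _ => Nat.factorial_ne_zero m), Finsupp.finset_sum_apply,
      Nat.cast_sum, Finset.sum_mul]

end Pool.Agent.H537R6
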