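import Pool.Agent.H537R6.Defs

set_option autoImplicit false

/-!
# DEG: degrees and leading coefficients of the `F k` (MP_3bb5df_lc, task DEG)
-/

namespace Pool.Agent.H537R6

open Polynomial

namespace T_DEG

theorem natDegree_G (h : ℤ[X]) (c : ℕ) (hc : 1 ≤ c) : (G h c).natDegree = h.natDegree := by
  unfold G
  have hc' : ((c : ℚ)⁻¹) ≠ 0 := by
    apply inv_ne_zero
    exact_mod_cast (by omega : c ≠ 0)
  rw [natDegree_C_mul hc', natDegree_map_eq_of_injective (RingHom.injective_int _)]

theorem leadingCoeff_G (h : ℤ[X]) (c : ℕ) :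
    (G h c).leadingCoeff = (c : ℚ)⁻¹ * (h.leadingCoeff : ℚ) := by
  unfold G
  rw [leadingCoeff_mul, leadingCoeff_C,
    leadingCoeff_map_of_injective (RingHom.injective_int (Int.castRingHom ℚ))]
  simp

theorem natDegree_F_succ (h : ℕ → ℤ[X]) (c : ℕ → ℕ) (k : ℕ) (hc : 1 ≤ c k) :
    (F h c (k + 1)).natDegree = (h k).natDegree * (F h c k).natDegree := by
  change ((G (h k) (c k)).comp (F h c k)).natDegree = _
  rw [natDegree_comp, natDegree_G _ _ hc]

theorem leadingCoeff_F_succ (h : ℕ → ℤ[X]) (c : ℕ → ℕ) (k : ℕ) (hc : 1 ≤ c k)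
    (hF : (F h c k).natDegree ≠ 0) :
    (F h c (k + 1)).leadingCoeff =
      (c k : ℚ)⁻¹ * ((h k).leadingCoeff : ℚ) * (F h c k).leadingCoeff ^ (h k).natDegree := by
  change ((G (h k) (c k)).comp (F h c k)).leadingCoeff = _
  rw [leadingCoeff_comp hF, natDegree_G _ _ hc, leadingCoeff_G]

end T_DEG

open T_DEG in
theorem t_DEG : S_DEG := by
  intro n e b h c hg
  have h0 : (F h c 0).natDegree = 1 := by
    change (X : ℚ[X]).natDegree = 1
    exact natDegree_X
  have hpow : ∀ k ≤ n, 2 ^ k ≤ (F h c k).natDegree := by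
    intro k
    induction k with
    | zero => intro _; rw [h0]; simp
    | succ k ih =>
      intro hk
      have hk' := hg k (by omega)
      rw [natDegree_F_succ h c k hk'.c_pos, pow_succ, mul_comm (2 ^ k) 2]
      exact Nat.mul_le_mul hk'.two_le (ih (by omega))
  refine ⟨h0, ?_, hpow, ?_⟩
  · intro k hk
    have hk' := hg k hk
    rw [natDegree_F_succ h c k hk'.c_pos]
    exact ⟨Nat.mul_le_mul_right _ hk'.two_le, Nat.mul_le_mul_right _ hk'.le_e⟩
  · intro k
    induction k with
    | zero =>
      intro _
      refine ⟨0, 1, one_ne_zero, ?_⟩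
      change _ * (X : ℚ[X]).leadingCoeff = _
      simp
    | succ k ih =>
      intro hk
      have hk' := hg k (by omega)
      obtain ⟨s, l, hl, hsl⟩ := ih (by omega)
      have hF : (F h c k).natDegree ≠ 0 := by
        have := hpow k (by omega)
        have h2 : 0 < 2 ^ k := by positivity
        omega
      have hc0 : (c k : ℚ) ≠ 0 := by
        have := hk'.c_pos
        exact_mod_cast (by omega : c k ≠ 0)
      have hh0 : (h k).leadingCoeff ≠ 0 := by
        intro hz
        rw [leadingCoeff_eq_zero] at hz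
        have := hk'.two_le
        rw [hz] at this
        simp at this
      rw [leadingCoeff_F_succ h c k hk'.c_pos hF]
      set d := (h k).natDegree with hd
      set P : ℕ := ∏ j ∈ Finset.range k, c j with hP
      have hPpos : 0 < P := by
        apply Finset.prod_pos
        intro j hj
        have := (hg j (by have := Finset.mem_range.mp hj; omega)).c_pos
        omega
      refine ⟨s * d + 1, (c k : ℤ) ^ (s * d) * (P : ℤ) * (h k).leadingCoeff * l ^ d, ?_, ?_⟩
      · refine mul_ne_zero (mul_ne_zero (mul_ne_zero (pow_ne_zero _ ?_) ?_) hh0)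
          (pow_ne_zero _ hl)
        · have := hk'.c_pos
          exact_mod_cast (by omega : c k ≠ 0)
        · exact_mod_cast (by omega : P ≠ 0)
      · rw [Finset.prod_range_succ, ← hP]
        push_cast
        rw [← hsl]
        rw [mul_pow, mul_pow, ← pow_mul]
        rw [pow_succ, pow_succ]
        field_simp

end Pool.Agent.H537R6
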