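import Pool.Agent.H537R6.Defs

set_option autoImplicit false

/-! Task DEN: one step down, denominators. -/

namespace Pool.Agent.H537R6

open Polynomial

namespace T_DEN

/-- the value of an integral polynomial at a rational number -/
theorem eval_eq (h : ℤ[X]) (z : ℚ) : ∃ H : ℤ,
    (h.map (Int.castRingHom ℚ)).eval z * (z.den : ℚ) ^ h.natDegree =
      ((h.leadingCoeff * z.num ^ h.natDegree + z.den * H : ℤ) : ℚ) := by
  set d := h.natDegree with hdd
  refine ⟨∑ i ∈ Finset.range d, h.coeff i * z.num ^ i * (z.den : ℤ) ^ (d - 1 - i), ?_⟩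
  have hzv : z * (z.den : ℚ) = (z.num : ℚ) := Rat.mul_den_eq_num z
  have hv : (z.den : ℚ) ≠ 0 := by exact_mod_cast z.den_ne_zero
  have hnat : (h.map (Int.castRingHom ℚ)).natDegree = d := by
    rw [hdd]
    exact natDegree_map_eq_of_injective (RingHom.injective_int _) h
  rw [eval_eq_sum_range, hnat, Finset.sum_range_succ, add_mul, Finset.sum_mul]
  have hlead : h.coeff d = h.leadingCoeff := rfl
  have h1 : (h.map (Int.castRingHom ℚ)).coeff d * z ^ d * (z.den : ℚ) ^ d =
      ((h.leadingCoeff * z.num ^ d : ℤ) : ℚ) := by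
    rw [coeff_map, hlead, mul_assoc, ← mul_pow, hzv]
    push_cast
    rfl
  have h2 : ∑ i ∈ Finset.range d, (h.map (Int.castRingHom ℚ)).coeff i * z ^ i *
      (z.den : ℚ) ^ d = ((z.den * ∑ i ∈ Finset.range d, h.coeff i * z.num ^ i *
        (z.den : ℤ) ^ (d - 1 - i) : ℤ) : ℚ) := by
    push_cast
    rw [Finset.mul_sum]
    refine Finset.sum_congr rfl fun i hi => ?_
    rw [Finset.mem_range] at hi
    have e1 : (z.den : ℚ) ^ d = (z.den : ℚ) ^ i * ((z.den : ℚ) * (z.den : ℚ) ^ (d - 1 - i)) := by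
      rw [← pow_succ', ← pow_add]
      congr 1
      omega
    rw [coeff_map, e1, ← hzv, mul_pow]
    simp only [eq_intCast]
    ring
  rw [h1, h2]
  push_cast
  ring

end T_DEN

open T_DEN in
theorem t_DEN : S_DEN := by
  intro h c z hd hc
  obtain ⟨H, hH⟩ := eval_eq h z
  set d := h.natDegree with hdd
  set v : ℤ := (z.den : ℤ) with hv
  set u : ℤ := z.num with hu
  set a : ℤ := h.leadingCoeff with ha
  set w : ℚ := (G h c).eval z with hw
  set v' : ℤ := (w.den : ℤ) with hv'
  have hc0 : (c : ℚ) ≠ 0 := by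
    have : 0 < c := hc
    exact_mod_cast this.ne'
  have hcop : IsCoprime u v := by
    rw [hu, hv, Int.isCoprime_iff_gcd_eq_one]
    exact z.reduced
  -- the relation between the two values
  have hrel : v' * (a * u ^ d + v * H) = c * w.num * v ^ d := by
    have h1 : (c : ℚ) * w = (h.map (Int.castRingHom ℚ)).eval z := by
      rw [hw]
      unfold G
      rw [eval_mul, eval_C, ← mul_assoc, mul_inv_cancel₀ hc0, one_mul]
    have h2 : w * (w.den : ℚ) = (w.num : ℚ) := Rat.mul_den_eq_num w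
    have hvq : (v : ℚ) = (z.den : ℚ) := by rw [hv, Int.cast_natCast]
    have hvq' : (v' : ℚ) = (w.den : ℚ) := by rw [hv', Int.cast_natCast]
    have h3 : ((v' * (a * u ^ d + v * H) : ℤ) : ℚ) = ((c * w.num * v ^ d : ℤ) : ℚ) := by
      rw [Int.cast_mul v', ← hH, ← h1]
      push_cast
      rw [← h2, hvq, hvq']
      ring
    exact_mod_cast h3
  have hv2 : v ^ 2 ∣ v' * (a * u ^ d + v * H) := by
    rw [hrel]
    exact Dvd.dvd.mul_left (pow_dvd_pow v hd) _
  have hv1 : v ∣ v' * a := by
    have h1 : v ∣ v' * (a * u ^ d + v * H) := (Dvd.intro_left (v ^ 1) (by ring)).trans hv2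
    have h2 : v ∣ (v' * a) * u ^ d := by
      have h3 : (v' * a) * u ^ d = v' * (a * u ^ d + v * H) - v * (v' * H) := by ring
      rw [h3]
      exact dvd_sub h1 (Dvd.intro _ rfl)
    exact (hcop.symm.pow_right).dvd_of_dvd_mul_right h2
  have hfin : v ^ 2 ∣ a ^ 2 * v' := by
    have h2 : v ^ 2 ∣ (a ^ 2 * v') * u ^ d := by
      have h3 : (a ^ 2 * v') * u ^ d = a * (v' * (a * u ^ d + v * H)) - v * (v' * a) * H := by
        ring
      rw [h3]
      refine dvd_sub (Dvd.dvd.mul_left hv2 _) (Dvd.dvd.mul_right ?_ _)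
      rw [sq]
      exact mul_dvd_mul_left v hv1
    exact ((hcop.symm.pow_left).pow_right).dvd_of_dvd_mul_right h2
  have h4 := Int.natAbs_dvd_natAbs.2 hfin
  rw [Int.natAbs_pow, Int.natAbs_mul, Int.natAbs_pow, hv, hv', Int.natAbs_natCast,
    Int.natAbs_natCast] at h4
  exact h4

end Pool.Agent.H537R6
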