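import Pool.Agent.H537R6.Defs

set_option autoImplicit false

/-! Task DET: the determinant. -/

namespace Pool.Agent.H537R6

open Polynomial

theorem t_DET : S_DET := by
  classical
  intro N Q T A x W hQ hT hx hy hW hw
  have hw' : ∀ (i : Fin N) (j : Fin N), ∃ w : ℤ, (W j).eval (x i) = w ∧ |w| ≤ A :=
    fun i j => hw i j j.2
  choose w hw1 hw2 using hw'
  choose y hy using hy
  have hs : ∀ j : Fin N, ∃ s : ℕ, ∃ l : ℤ, l ≠ 0 ∧ (T : ℚ) ^ s * (W j).leadingCoeff = l :=
    fun j => (hW j j.2).2
  choose s l hl0 hl using hs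
  have hdeg : ∀ j : Fin N, (W j).natDegree = j := fun j => (hW j j.2).1
  -- the determinant
  set D : ℤ := (Matrix.of w).det with hD
  set V : ℚ := (Matrix.vandermonde x).det with hV
  have hlc : ∀ j : Fin N, (W j).leadingCoeff ≠ 0 := by
    intro j h0
    have h1 := hl j
    rw [h0, mul_zero] at h1
    exact hl0 j (by exact_mod_cast h1.symm)
  have hDV : (D : ℚ) = V * ∏ j : Fin N, (W j).leadingCoeff := by
    have h1 : (D : ℚ) = (Matrix.of fun i j : Fin N => (W j).eval (x i)).det := by
      rw [hD]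
      have h2 : ((Matrix.of w).det : ℚ) = Int.castRingHom ℚ (Matrix.of w).det := rfl
      rw [h2, RingHom.map_det]
      congr 1
      ext i j
      simp [hw1]
    rw [h1, Matrix.eval_matrixOfPolynomials_eq_vandermonde_mul_matrixOfPolynomials x
      (fun j : Fin N => W j) (fun j => (hdeg j).le), Matrix.det_mul]
    congr 1
    rw [Matrix.det_of_isUpperTriangular]
    · refine Finset.prod_congr rfl fun j _ => ?_
      rw [Matrix.of_apply, leadingCoeff, hdeg j]
    · intro i j hij
      rw [Matrix.of_apply]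
      apply coeff_eq_zero_of_natDegree_lt
      rw [hdeg j]
      exact hij
  have hV0 : V ≠ 0 := Matrix.det_vandermonde_ne_zero_iff.2 hx
  have hD0 : D ≠ 0 := by
    intro h0
    rw [h0, Int.cast_zero] at hDV
    have h1 : V * ∏ j : Fin N, (W j).leadingCoeff ≠ 0 :=
      mul_ne_zero hV0 (Finset.prod_ne_zero_iff.2 fun j _ => hlc j)
    exact h1 hDV.symm
  refine ⟨D, hD0, ?_, ?_⟩
  · have h1 := Matrix.det_le (A := Matrix.of w) (abv := (AbsoluteValue.abs : AbsoluteValue ℤ ℤ))
      (x := A) (fun i j => hw2 i j)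
    rw [Fintype.card_fin, nsmul_eq_mul] at h1
    exact h1
  · -- divisibility
    set t : ℕ := ∑ j : Fin N, (j : ℕ) with ht
    set S : ℕ := ∑ j : Fin N, s j with hS
    set L : ℤ := ∏ j : Fin N, l j with hL
    have hVy : (((Matrix.vandermonde y).det : ℤ) : ℚ) = (Q : ℚ) ^ t * V := by
      have h2 : (((Matrix.vandermonde y).det : ℤ) : ℚ) =
          Int.castRingHom ℚ (Matrix.vandermonde y).det := rfl
      rw [h2, RingHom.map_det]
      have h3 : (Int.castRingHom ℚ).mapMatrix (Matrix.vandermonde y) =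
          Matrix.vandermonde x * Matrix.diagonal (fun j : Fin N => (Q : ℚ) ^ (j : ℕ)) := by
        ext i j
        rw [Matrix.mul_diagonal]
        simp only [RingHom.mapMatrix_apply, Matrix.map_apply, Matrix.vandermonde_apply, map_pow,
          eq_intCast]
        rw [← hy i, mul_pow, mul_comm]
      rw [h3, Matrix.det_mul, Matrix.det_diagonal, Finset.prod_pow_eq_pow_sum, ← ht, mul_comm]
    have hLl : (T : ℚ) ^ S * ∏ j : Fin N, (W j).leadingCoeff = L := by
      rw [hS, ← Finset.prod_pow_eq_pow_sum, ← Finset.prod_mul_distrib, hL]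
      push_cast
      exact Finset.prod_congr rfl fun j _ => hl j
    have hmain : (T : ℤ) ^ S * (Q : ℤ) ^ t * D = L * (Matrix.vandermonde y).det := by
      have h1 : (((T : ℤ) ^ S * (Q : ℤ) ^ t * D : ℤ) : ℚ) =
          ((L * (Matrix.vandermonde y).det : ℤ) : ℚ) := by
        rw [Int.cast_mul L, hVy, ← hLl]
        push_cast
        rw [hDV]
        ring
      exact_mod_cast h1
    have hsf : ((∏ m ∈ Finset.range N, m.factorial : ℕ) : ℤ) ∣ (Matrix.vandermonde y).det := by
      rcases Nat.eq_zero_or_pos N with h0 | h0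
      · subst h0
        simp
      · obtain ⟨n, rfl⟩ := Nat.exists_eq_succ_of_ne_zero h0.ne'
        have h1 := Matrix.superFactorial_dvd_vandermonde_det y
        rw [← Nat.prod_range_factorial_succ] at h1
        have h2 : ∏ m ∈ Finset.range n.succ, m.factorial =
            ∏ m ∈ Finset.range n, (m + 1).factorial := by
          rw [Nat.succ_eq_add_one, Finset.prod_range_succ']
          simp
        rw [h2]
        exact h1
    refine ⟨S + t, ?_⟩
    have h1 : ((Q * T : ℕ) : ℤ) ^ (S + t) * D =
        (Q : ℤ) ^ S * (T : ℤ) ^ t * L * (Matrix.vandermonde y).det := by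
      push_cast
      have h2 : ((Q : ℤ) * T) ^ (S + t) * D =
          (Q : ℤ) ^ S * (T : ℤ) ^ t * ((T : ℤ) ^ S * (Q : ℤ) ^ t * D) := by
        rw [mul_pow, pow_add, pow_add]
        ring
      rw [h2, hmain]
      ring
    rw [h1]
    exact Dvd.dvd.mul_left hsf _

end Pool.Agent.H537R6
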