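import Pool.Agent.H537R6.Defs

set_option autoImplicit false

namespace Pool.Agent.H537R6

open Polynomial

/-- ESC: large values never become smaller. -/
theorem t_ESC : S_ESC := by
  intro e b h c hg z hz
  have hd2 := hg.two_le
  have hde := hg.le_e
  obtain ⟨d, hd⟩ : ∃ d, h.natDegree = d + 2 := ⟨h.natDegree - 2, by omega⟩
  have hB : (1 : ℚ) ≤ 2 ^ b := one_le_pow₀ (by norm_num)
  have he0 : (0 : ℚ) ≤ e := Nat.cast_nonneg e
  have hz1 : (1 : ℚ) ≤ |z| := by
    have : (1 : ℚ) ≤ ((e : ℚ) + 1) * 2 ^ b := by nlinarith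
    linarith
  have hz0 : (0 : ℚ) ≤ |z| := by linarith
  -- the value of the polynomial
  have hev : (G h c).eval z = (c : ℚ)⁻¹ *
      ((∑ i ∈ Finset.range (d + 2), ((h.coeff i : ℤ) : ℚ) * z ^ i) +
        ((h.coeff (d + 2) : ℤ) : ℚ) * z ^ (d + 2)) := by
    unfold G
    rw [eval_mul, eval_C, eval_map, eval₂_eq_sum_range, hd, Finset.sum_range_succ]
    simp
  have hlead : (1 : ℚ) ≤ |((h.coeff (d + 2) : ℤ) : ℚ)| := by
    have h0 : h.coeff (d + 2) ≠ 0 := by
      have hh : h ≠ 0 := by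
        rintro rfl
        simp at hd2
      rw [← hd]
      exact leadingCoeff_ne_zero.2 hh
    rw [← Int.cast_abs]
    exact_mod_cast Int.one_le_abs h0
  have hsum : |∑ i ∈ Finset.range (d + 2), ((h.coeff i : ℤ) : ℚ) * z ^ i| ≤
      ((d : ℚ) + 2) * 2 ^ b * |z| ^ (d + 1) := by
    calc |∑ i ∈ Finset.range (d + 2), ((h.coeff i : ℤ) : ℚ) * z ^ i|
        ≤ ∑ i ∈ Finset.range (d + 2), |((h.coeff i : ℤ) : ℚ) * z ^ i| :=
          Finset.abs_sum_le_sum_abs _ _
      _ ≤ ∑ i ∈ Finset.range (d + 2), 2 ^ b * |z| ^ (d + 1) := by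
          refine Finset.sum_le_sum fun i hi => ?_
          rw [abs_mul, abs_pow]
          have h1 : |((h.coeff i : ℤ) : ℚ)| ≤ 2 ^ b := by
            rw [← Int.cast_abs]
            exact_mod_cast hg.coeff_le i
          have h2 : |z| ^ i ≤ |z| ^ (d + 1) :=
            pow_le_pow_right₀ hz1 (by have := Finset.mem_range.1 hi; omega)
          exact mul_le_mul h1 h2 (by positivity) (by positivity)
      _ = ((d : ℚ) + 2) * 2 ^ b * |z| ^ (d + 1) := by
          rw [Finset.sum_const, Finset.card_range, nsmul_eq_mul]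
          push_cast
          ring
  have hmain : |z| * 2 ^ b ≤ |(∑ i ∈ Finset.range (d + 2), ((h.coeff i : ℤ) : ℚ) * z ^ i) +
        ((h.coeff (d + 2) : ℤ) : ℚ) * z ^ (d + 2)| := by
    have h1 : |((h.coeff (d + 2) : ℤ) : ℚ) * z ^ (d + 2)| ≥ |z| ^ (d + 2) := by
      rw [abs_mul, abs_pow]
      have : 0 ≤ |z| ^ (d + 2) := by positivity
      nlinarith
    have h2 := abs_add_le ((∑ i ∈ Finset.range (d + 2), ((h.coeff i : ℤ) : ℚ) * z ^ i) +
        ((h.coeff (d + 2) : ℤ) : ℚ) * z ^ (d + 2))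
        (-(∑ i ∈ Finset.range (d + 2), ((h.coeff i : ℤ) : ℚ) * z ^ i))
    rw [abs_neg, add_neg_cancel_comm] at h2
    have h3 : |z| ^ (d + 1) * (|z| - ((d : ℚ) + 2) * 2 ^ b) ≥ |z| * 2 ^ b := by
      have h4 : |z| ≤ |z| ^ (d + 1) := le_self_pow₀ hz1 (by omega)
      have h5 : (2 : ℚ) ^ b ≤ |z| - ((d : ℚ) + 2) * 2 ^ b := by
        have h6 : ((d : ℚ) + 2) ≤ e := by
          have : d + 2 ≤ e := by omega
          exact_mod_cast this
        nlinarith
      exact mul_le_mul h4 h5 (by positivity) (by positivity)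
    have h7 : |z| ^ (d + 2) = |z| ^ (d + 1) * |z| := pow_succ _ _
    nlinarith
  have hc1 : (1 : ℚ) ≤ c := by exact_mod_cast hg.c_pos
  have hc2 : (c : ℚ) ≤ 2 ^ b := by exact_mod_cast hg.c_le
  rw [hev, abs_mul, abs_inv, abs_of_nonneg (by linarith : (0 : ℚ) ≤ c), inv_mul_eq_div,
    le_div_iff₀ (by linarith)]
  calc |z| * (c : ℚ) ≤ |z| * 2 ^ b := mul_le_mul_of_nonneg_left hc2 hz0
    _ ≤ _ := hmain

end Pool.Agent.H537R6
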