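import Pool.Agent.H537R6.Defs

set_option autoImplicit false

/-!
# LOW: lower bound for `log |D|`
-/

namespace Pool.Agent.H537R6

namespace T_LOW

theorem nonneg (m P : ℕ) : ∑ p ∈ P.primeFactors, (m.factorial.factorization p : ℝ) * Real.log p ≤
    Real.log (m.factorial : ℝ) := by
  rw [Real.log_nat_eq_sum_factorization, Finsupp.sum]
  calc ∑ p ∈ P.primeFactors, (m.factorial.factorization p : ℝ) * Real.log p
      ≤ ∑ p ∈ P.primeFactors ∪ m.factorial.factorization.support,
          (m.factorial.factorization p : ℝ) * Real.log p := by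
        refine Finset.sum_le_sum_of_subset_of_nonneg Finset.subset_union_left fun p _ _ => ?_
        exact mul_nonneg (Nat.cast_nonneg _) (Real.log_natCast_nonneg _)
    _ = ∑ p ∈ m.factorial.factorization.support,
          (m.factorial.factorization p : ℝ) * Real.log p := by
        symm
        refine Finset.sum_subset Finset.subset_union_right fun p _ hp => ?_
        rw [Finsupp.notMem_support_iff] at hp
        rw [hp]
        simp

theorem stirling (m : ℕ) (hm : 1 ≤ m) : (m : ℝ) * Real.log m - m ≤ Real.log (m.factorial : ℝ) := by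
  have h := Real.pow_div_factorial_le_exp (m : ℝ) (Nat.cast_nonneg m) m
  have hf : (0 : ℝ) < (m.factorial : ℝ) := by exact_mod_cast m.factorial_pos
  have hm' : (0 : ℝ) < m := by exact_mod_cast hm
  have h1 := Real.log_le_log (by positivity) h
  rw [Real.log_exp, Real.log_div (by positivity) hf.ne', Real.log_pow] at h1
  linarith

end T_LOW

theorem t_LOW : S_COP → S_PRI → S_LOW := by
  rintro hC ⟨K1, hK1, hP⟩
  have hE : (1 : ℝ) ≤ Real.exp (K1 + 2) := Real.one_le_exp (by linarith)
  refine ⟨2 * Real.exp (K1 + 2), by positivity, ?_⟩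
  intro N P s D hP1 hD hdvd hN
  have hL : 0 ≤ Real.log (P : ℝ) := Real.log_natCast_nonneg P
  have hN2 : (2 : ℝ) ≤ N := by nlinarith
  have hcop := hC N P s D hP1 hD hdvd
  refine le_trans ?_ hcop
  have hterm : ∀ m ∈ Finset.range N, (if N ≤ 2 * m then (N : ℝ) / 2 else 0) ≤
      Real.log (m.factorial : ℝ) -
        ∑ p ∈ P.primeFactors, (m.factorial.factorization p : ℝ) * Real.log p := by
    intro m _
    split_ifs with hm
    · have hm' : (N : ℝ) ≤ 2 * m := by exact_mod_cast hm
      have hm1 : 1 ≤ m := by
        have : (1 : ℝ) ≤ m := by linarith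
        exact_mod_cast this
      have h1 := T_LOW.stirling m hm1
      have h2 := hP m P hP1
      have hmpos : (0 : ℝ) < m := by linarith
      have h3 : Real.exp (K1 + 2) * (Real.log P + 1) ≤ m := by linarith
      have h4 := Real.log_le_log (by positivity) h3
      rw [Real.log_mul (by positivity) (by positivity), Real.log_exp] at h4
      have h5 : (m : ℝ) * (K1 + 2 + Real.log (Real.log P + 1)) ≤ m * Real.log m :=
        mul_le_mul_of_nonneg_left h4 hmpos.le
      nlinarith
    · have := T_LOW.nonneg m P
      linarith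
  refine le_trans ?_ (Finset.sum_le_sum hterm)
  rw [← Finset.sum_filter, Finset.sum_const, nsmul_eq_mul]
  have hcard : (N : ℝ) - 1 ≤ 2 * (((Finset.range N).filter (fun m => N ≤ 2 * m)).card : ℝ) := by
    have h6 : Finset.Ico ((N + 1) / 2) N ⊆ (Finset.range N).filter (fun m => N ≤ 2 * m) := by
      intro m hm
      rw [Finset.mem_Ico] at hm
      rw [Finset.mem_filter, Finset.mem_range]
      omega
    have h7 := Finset.card_le_card h6
    rw [Nat.card_Ico] at h7
    have h8 : N ≤ 2 * ((Finset.range N).filter (fun m => N ≤ 2 * m)).card + 1 := by omega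
    have h9 : (N : ℝ) ≤ 2 * (((Finset.range N).filter (fun m => N ≤ 2 * m)).card : ℝ) + 1 := by
      exact_mod_cast h8
    linarith
  nlinarith

end Pool.Agent.H537R6
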