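import Pool.Agent.H537R6.Defs

set_option autoImplicit false

/-!
# Task NUM: the final numerical inequality
-/

namespace Pool.Agent.H537R6

theorem NUM_pow (k : ℕ) : (k + 1) ^ 4 ≤ 81 * 2 ^ k := by
  rcases Nat.lt_or_ge k 6 with h | h
  · interval_cases k <;> norm_num
  · induction k, h using Nat.le_induction with
    | base => norm_num
    | succ k hk ih =>
      have h2 : (k + 1 + 1) ^ 4 ≤ 2 * (k + 1) ^ 4 := by
        have h3 : k + 1 + 1 ≤ k + 1 + 1 := le_rfl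
        obtain ⟨j, rfl⟩ := Nat.exists_eq_add_of_le hk
        ring_nf
        nlinarith [sq_nonneg j, Nat.zero_le (j ^ 3), Nat.zero_le (j ^ 4)]
      calc (k + 1 + 1) ^ 4 ≤ 2 * (k + 1) ^ 4 := h2
        _ ≤ 2 * (81 * 2 ^ k) := Nat.mul_le_mul_left _ ih
        _ = 81 * 2 ^ (k + 1) := by ring

theorem t_NUM : S_NUM := by
  intro K hK
  obtain ⟨c, hc1, hc2⟩ : ∃ c : ℕ, 137 ≤ c ∧ 9 * K ≤ (c : ℝ) :=
    ⟨max 137 ⌈9 * K⌉₊, le_max_left _ _,
      (Nat.le_ceil _).trans (by exact_mod_cast le_max_right _ _)⟩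
  refine ⟨c ^ 2, fun N e b he hb h => ?_⟩
  by_contra hN
  push Not at hN
  have hNpos : 0 < N := lt_of_le_of_lt (Nat.zero_le _) hN
  have hN0 : (0 : ℝ) < N := by exact_mod_cast hNpos
  have hc1' : (137 : ℝ) ≤ c := by exact_mod_cast hc1
  have hcpos : (0 : ℝ) < c := by linarith
  obtain ⟨x, hx0, hx4⟩ : ∃ x : ℝ, 0 ≤ x ∧ x ^ 4 = N :=
    ⟨(N : ℝ) ^ ((1 : ℝ) / 4), by positivity, by
      rw [← Real.rpow_natCast, ← Real.rpow_mul (by positivity)]; norm_num⟩
  -- the logarithm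
  have hL4 : ((Nat.log 2 N + 1 : ℕ) : ℝ) ^ 4 ≤ (3 * x) ^ 4 := by
    have h1 := NUM_pow (Nat.log 2 N)
    have h2 : 2 ^ Nat.log 2 N ≤ N := Nat.pow_log_le_self 2 hNpos.ne'
    have h3 : (Nat.log 2 N + 1) ^ 4 ≤ 81 * N := h1.trans (Nat.mul_le_mul_left _ h2)
    have h4 : (((Nat.log 2 N + 1) ^ 4 : ℕ) : ℝ) ≤ ((81 * N : ℕ) : ℝ) := by exact_mod_cast h3
    push_cast at h4 ⊢
    nlinarith [h4, hx4]
  have hL : ((Nat.log 2 N + 1 : ℕ) : ℝ) ≤ 3 * x :=
    (pow_le_pow_iff_left₀ (by positivity) (by positivity) (by norm_num)).1 hL4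
  set L : ℝ := ((Nat.log 2 N + 1 : ℕ) : ℝ) with hLdef
  have hL1 : 1 ≤ L := by
    rw [hLdef]; push_cast; linarith [Nat.cast_nonneg (α := ℝ) (Nat.log 2 N)]
  -- size of `e b`
  have he' : (2 : ℝ) ≤ e := by exact_mod_cast he
  have hb' : (1 : ℝ) ≤ b := by exact_mod_cast hb
  have hm2 : ((c : ℝ) * (e * b)) ^ 2 ≤ (x ^ 2) ^ 2 := by
    have h1 : (((c ^ 2 * (e * b) ^ 2 : ℕ)) : ℝ) ≤ (N : ℝ) := by exact_mod_cast hN.le
    push_cast at h1
    nlinarith [h1, hx4]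
  have hm : (c : ℝ) * (e * b) ≤ x ^ 2 :=
    (pow_le_pow_iff_left₀ (by positivity) (by positivity) (by norm_num)).1 hm2
  have hce : (c : ℝ) * e ≤ x ^ 2 := by
    refine le_trans ?_ hm
    have : (e : ℝ) ≤ e * b := by nlinarith
    nlinarith
  have hcb : (c : ℝ) * b ≤ x ^ 2 := by
    refine le_trans ?_ hm
    have : (b : ℝ) ≤ e * b := by nlinarith
    nlinarith
  have hx2 : 2 * (c : ℝ) ≤ x ^ 2 := by nlinarith
  have hx1 : 1 ≤ x := by nlinarith
  have hxpos : 0 < x := by linarith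
  have hx3 : x ^ 3 ≤ x ^ 4 := by
    have : x ^ 4 = x ^ 3 * x := by ring
    rw [this]; nlinarith [pow_pos hxpos 3]
  -- premise
  have hlog2 : Real.log 2 ≤ 1 := by
    have := Real.log_two_lt_d9; linarith
  have hlog2' : 0 ≤ Real.log 2 := Real.log_nonneg (by norm_num)
  have hprem : K * (((2 * b + b * Nat.log 2 N : ℕ) : ℝ) * Real.log 2 + 1) ≤ N := by
    have h1 : ((2 * b + b * Nat.log 2 N : ℕ) : ℝ) ≤ 2 * (b * L) := by
      rw [hLdef]; push_cast
      nlinarith [mul_nonneg (by linarith : (0:ℝ) ≤ b) (Nat.cast_nonneg (α := ℝ) (Nat.log 2 N))]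
    have hbL : 1 ≤ (b : ℝ) * L := by nlinarith
    have h2 : ((2 * b + b * Nat.log 2 N : ℕ) : ℝ) * Real.log 2 + 1 ≤ 3 * (b * L) := by
      have : ((2 * b + b * Nat.log 2 N : ℕ) : ℝ) * Real.log 2 ≤ 2 * (b * L) * 1 :=
        mul_le_mul h1 hlog2 hlog2' (by positivity)
      linarith
    have h3 : K * (((2 * b + b * Nat.log 2 N : ℕ) : ℝ) * Real.log 2 + 1) ≤ K * (3 * (b * L)) :=
      mul_le_mul_of_nonneg_left h2 hK.le
    have h4 : (b : ℝ) * L ≤ b * (3 * x) := mul_le_mul_of_nonneg_left hL (by linarith)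
    have h5 : K * (3 * (b * L)) ≤ K * (3 * (b * (3 * x))) := by
      refine mul_le_mul_of_nonneg_left ?_ hK.le
      linarith
    have h6 : K * (3 * (b * (3 * x))) = (9 * K) * b * x := by ring
    have h7 : (9 * K) * b * x ≤ c * b * x := by
      refine mul_le_mul_of_nonneg_right ?_ hx0
      exact mul_le_mul_of_nonneg_right hc2 (by linarith)
    have h8 : (c : ℝ) * b * x ≤ x ^ 2 * x := mul_le_mul_of_nonneg_right hcb hx0
    have h9 : x ^ 2 * x = x ^ 3 := by ring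
    linarith
  have hmain := h hprem
  -- the logarithm of `e + 1`
  have hloge : Real.log ((e : ℝ) + 1) ≤ 2 * x := by
    have h1 : (e : ℝ) + 1 ≤ x ^ 2 := by nlinarith
    calc Real.log ((e : ℝ) + 1) ≤ Real.log (x ^ 2) := Real.log_le_log (by linarith) h1
      _ = 2 * Real.log x := by rw [Real.log_pow]; norm_num
      _ ≤ 2 * x := by
        have := Real.log_le_sub_one_of_pos hxpos
        linarith
  have hloge0 : 0 ≤ Real.log ((e : ℝ) + 1) := Real.log_nonneg (by linarith)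
  have hlogN : Real.log N ≤ 4 * x := by
    rw [← hx4, Real.log_pow]
    have := Real.log_le_sub_one_of_pos hxpos
    push_cast
    linarith
  -- the product
  have hE : (((e - 1) * (Nat.log 2 N + 1) : ℕ) : ℝ) ≤ e * L := by
    rw [hLdef]
    have : (e - 1) * (Nat.log 2 N + 1) ≤ e * (Nat.log 2 N + 1) :=
      Nat.mul_le_mul_right _ (Nat.sub_le _ _)
    exact_mod_cast this
  have hS : (((e - 1) * (Nat.log 2 N + 1) : ℕ) : ℝ) *
      (Real.log ((e : ℝ) + 1) + 3 * b * Real.log 2) ≤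
      (e * L) * (2 * x) + (e * L) * (3 * b) := by
    have h0 : 0 ≤ Real.log ((e : ℝ) + 1) + 3 * b * Real.log 2 := by positivity
    have h1 : Real.log ((e : ℝ) + 1) + 3 * b * Real.log 2 ≤ 2 * x + 3 * b := by
      have : 3 * (b : ℝ) * Real.log 2 ≤ 3 * b * 1 :=
        mul_le_mul_of_nonneg_left hlog2 (by linarith)
      linarith
    calc _ ≤ (e * L) * (Real.log ((e : ℝ) + 1) + 3 * b * Real.log 2) :=
          mul_le_mul_of_nonneg_right hE h0
      _ ≤ (e * L) * (2 * x + 3 * b) := mul_le_mul_of_nonneg_left h1 (by positivity)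
      _ = _ := by ring
  have hA : (c : ℝ) * ((e * L) * (2 * x)) ≤ 6 * x ^ 4 := by
    have h1 : (e : ℝ) * L ≤ e * (3 * x) := mul_le_mul_of_nonneg_left hL (by linarith)
    have h2 : (c : ℝ) * ((e * L) * (2 * x)) ≤ c * ((e * (3 * x)) * (2 * x)) := by
      refine mul_le_mul_of_nonneg_left ?_ hcpos.le
      exact mul_le_mul_of_nonneg_right h1 (by linarith)
    have h3 : (c : ℝ) * ((e * (3 * x)) * (2 * x)) = (c * e) * (6 * x ^ 2) := by ring
    have h4 : (c * e : ℝ) * (6 * x ^ 2) ≤ x ^ 2 * (6 * x ^ 2) :=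
      mul_le_mul_of_nonneg_right hce (by positivity)
    have h5 : x ^ 2 * (6 * x ^ 2) = 6 * x ^ 4 := by ring
    linarith
  have hB : (c : ℝ) * ((e * L) * (3 * b)) ≤ 9 * x ^ 4 := by
    have h1 : (c : ℝ) * ((e * L) * (3 * b)) = (c * (e * b)) * (3 * L) := by ring
    have h2 : (c * (e * b) : ℝ) * (3 * L) ≤ x ^ 2 * (3 * (3 * x)) :=
      mul_le_mul hm (by linarith) (by linarith) (by positivity)
    have h3 : x ^ 2 * (3 * (3 * x)) = 9 * x ^ 3 := by ring
    linarith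
  have hC : (c : ℝ) * Real.log N ≤ 2 * x ^ 4 := by
    have h1 : (c : ℝ) * Real.log N ≤ c * (4 * x) := mul_le_mul_of_nonneg_left hlogN hcpos.le
    have h2 : (c : ℝ) * (4 * x) = (2 * c) * (2 * x) := by ring
    have h3 : (2 * c : ℝ) * (2 * x) ≤ x ^ 2 * (2 * x) :=
      mul_le_mul_of_nonneg_right hx2 (by linarith)
    have h4 : x ^ 2 * (2 * x) = 2 * x ^ 3 := by ring
    linarith
  have hdiv : (N : ℝ) / 8 ≤ Real.log N + (((e - 1) * (Nat.log 2 N + 1) : ℕ) : ℝ) *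
      (Real.log ((e : ℝ) + 1) + 3 * b * Real.log 2) := by
    have h1 : (N : ℝ) * ((N : ℝ) / 8) ≤ N * (Real.log N +
        (((e - 1) * (Nat.log 2 N + 1) : ℕ) : ℝ) *
        (Real.log ((e : ℝ) + 1) + 3 * b * Real.log 2)) := by
      calc (N : ℝ) * ((N : ℝ) / 8) = (N : ℝ) ^ 2 / 8 := by ring
        _ ≤ _ := hmain
        _ = _ := by ring
    exact le_of_mul_le_mul_left h1 hN0
  have hfin : (c : ℝ) * ((N : ℝ) / 8) ≤ 17 * x ^ 4 := by
    have h1 : (N : ℝ) / 8 ≤ Real.log N + ((e * L) * (2 * x) + (e * L) * (3 * b)) := by linarith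
    have h2 := mul_le_mul_of_nonneg_left h1 hcpos.le
    have h3 : (c : ℝ) * (Real.log N + ((e * L) * (2 * x) + (e * L) * (3 * b))) =
      c * Real.log N + c * ((e * L) * (2 * x)) + c * ((e * L) * (3 * b)) := by ring
    linarith
  rw [← hx4] at hfin
  have hx4pos : 0 < x ^ 4 := by positivity
  nlinarith

end Pool.Agent.H537R6
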