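import Pool.Agent.H537R6.Defs
import Pool.Agent.H426R3.SQ.N5

set_option autoImplicit false

/-! Task PRI (helper408). -/

namespace Pool.Agent.H537R6

open Finset

namespace T_PRI

/-- `(p-1) v_p(m!) ≤ m` -/
lemma leg (m p : ℕ) (hp : p.Prime) :
    (m.factorial.factorization p : ℝ) * Real.log p ≤ m * (Real.log p / (p - 1)) := by
  haveI := Fact.mk hp
  have h1 := sub_one_mul_padicValNat_factorial (p := p) m
  have h2 : (p - 1) * m.factorial.factorization p ≤ m := by
    rw [Nat.factorization_def _ hp, h1]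
    exact Nat.sub_le _ _
  have hp2 : (2 : ℝ) ≤ p := by exact_mod_cast hp.two_le
  have h3 : ((p : ℝ) - 1) * (m.factorial.factorization p : ℝ) ≤ m := by
    have h4 : (((p - 1 : ℕ) : ℝ)) * (m.factorial.factorization p : ℝ) ≤ m := by exact_mod_cast h2
    rwa [Nat.cast_sub hp.one_le, Nat.cast_one] at h4
  have hl : 0 ≤ Real.log p := Real.log_natCast_nonneg p
  rw [mul_div_assoc', le_div_iff₀ (by linarith)]
  nlinarith

/-- `Σ_{p ∣ P} log p ≤ log P` -/
lemma sum_log (P : ℕ) (hP : 1 ≤ P) : ∑ p ∈ P.primeFactors, Real.log p ≤ Real.log P := by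
  have h1 : (∏ p ∈ P.primeFactors, p) ≤ P := Nat.le_of_dvd hP (Nat.prod_primeFactors_dvd P)
  have h2 : Real.log ((∏ p ∈ P.primeFactors, p : ℕ) : ℝ) = ∑ p ∈ P.primeFactors, Real.log p := by
    push_cast
    rw [Real.log_prod]
    intro p hp
    have := (Nat.prime_of_mem_primeFactors hp).pos
    positivity
  rw [← h2]
  apply Real.log_le_log
  · have : 0 < ∏ p ∈ P.primeFactors, p :=
      Finset.prod_pos fun p hp => (Nat.prime_of_mem_primeFactors hp).pos
    exact_mod_cast this
  · exact_mod_cast h1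

end T_PRI

theorem t_PRI : S_PRI := by
  obtain ⟨C, hC0, hC⟩ := Pool.Agent.H426R3.SQ.N5.mertens'
  refine ⟨C + Real.log 2 + 1, by have := Real.log_nonneg (by norm_num : (1:ℝ) ≤ 2); positivity,
    fun m P hP => ?_⟩
  have hL : 0 ≤ Real.log P := Real.log_natCast_nonneg P
  set y : ℕ := ⌈Real.log P⌉₊ + 1 with hy
  have hy1 : 1 ≤ y := by omega
  have hyL : Real.log P + 1 ≤ y := by
    rw [hy]; push_cast
    have := Nat.le_ceil (Real.log P)
    linarith
  have hyU : (y : ℝ) ≤ 2 * (Real.log P + 1) := by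
    rw [hy]; push_cast
    have := Nat.ceil_lt_add_one hL
    linarith
  have hsum : ∑ p ∈ P.primeFactors, Real.log p / ((p : ℝ) - 1) ≤
      Real.log (Real.log P + 1) + (C + Real.log 2 + 1) := by
    rw [← Finset.sum_filter_add_sum_filter_not P.primeFactors (fun p => p ≤ y)]
    have h1 : ∑ p ∈ P.primeFactors.filter (fun p => p ≤ y), Real.log p / ((p : ℝ) - 1) ≤
        Real.log y + C := by
      refine le_trans (Finset.sum_le_sum_of_subset_of_nonneg ?_ ?_) (hC y hy1)
      · intro p hp
        rw [mem_filter] at hp ⊢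
        have hpp := Nat.prime_of_mem_primeFactors hp.1
        exact ⟨mem_Icc.mpr ⟨hpp.one_le, hp.2⟩, hpp⟩
      · intro p hp _
        have hpp := (mem_filter.mp hp).2
        have : (2 : ℝ) ≤ p := by exact_mod_cast hpp.two_le
        exact div_nonneg (Real.log_natCast_nonneg p) (by linarith)
    have h2 : ∑ p ∈ P.primeFactors.filter (fun p => ¬ p ≤ y), Real.log p / ((p : ℝ) - 1) ≤ 1 := by
      have hy0 : (0 : ℝ) < y := by exact_mod_cast hy1
      have h3 : ∀ p ∈ P.primeFactors.filter (fun p => ¬ p ≤ y),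
          Real.log p / ((p : ℝ) - 1) ≤ Real.log p / y := by
        intro p hp
        rw [mem_filter] at hp
        have h4 : y + 1 ≤ p := by omega
        have h5 : (y : ℝ) + 1 ≤ p := by exact_mod_cast h4
        exact div_le_div_of_nonneg_left (Real.log_natCast_nonneg p) hy0 (by linarith)
      refine (Finset.sum_le_sum h3).trans ?_
      rw [← Finset.sum_div, div_le_one hy0]
      have h6 : ∑ p ∈ P.primeFactors.filter (fun p => ¬ p ≤ y), Real.log p ≤
          ∑ p ∈ P.primeFactors, Real.log p :=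
        Finset.sum_le_sum_of_subset_of_nonneg (filter_subset _ _)
          fun p _ _ => Real.log_natCast_nonneg p
      linarith [T_PRI.sum_log P hP]
    have h3 : Real.log y ≤ Real.log 2 + Real.log (Real.log P + 1) := by
      rw [← Real.log_mul (by norm_num) (by linarith)]
      exact Real.log_le_log (by exact_mod_cast hy1) hyU
    linarith
  calc ∑ p ∈ P.primeFactors, (m.factorial.factorization p : ℝ) * Real.log p
      ≤ ∑ p ∈ P.primeFactors, (m : ℝ) * (Real.log p / ((p : ℝ) - 1)) :=
        Finset.sum_le_sum fun p hp => T_PRI.leg m p (Nat.prime_of_mem_primeFactors hp)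
    _ = m * ∑ p ∈ P.primeFactors, Real.log p / ((p : ℝ) - 1) := by rw [Finset.mul_sum]
    _ ≤ m * (Real.log (Real.log P + 1) + (C + Real.log 2 + 1)) :=
        mul_le_mul_of_nonneg_left hsum (Nat.cast_nonneg m)

end Pool.Agent.H537R6
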