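import Pool.Agent.H537R6.Defs2

/-! Task SCL (helper399): a gate with degree in `[2^i, 2^(i+1))`. -/

set_option autoImplicit false

namespace Pool.Agent.H537R6

open Polynomial

theorem u_SCL : S_SCL := by
  intro L g hg i hL
  classical
  have hex : ∃ k, k ≤ L ∧ 2 ^ i ≤ (g k).natDegree := ⟨L, le_rfl, hL⟩
  obtain ⟨k, hkf⟩ : ∃ k, k = Nat.find hex := ⟨_, rfl⟩
  have hspec := Nat.find_spec hex
  rw [← hkf] at hspec
  obtain ⟨hk, hdeg⟩ := hspec
  have hmin : ∀ j < k, (g j).natDegree < 2 ^ i := by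
    intro j hj
    have h1 := Nat.find_min hex (by rw [← hkf]; exact hj)
    by_contra h
    exact h1 ⟨by omega, by omega⟩
  refine ⟨k, hk, hdeg, ?_⟩
  have h1 : 1 ≤ 2 ^ i := Nat.one_le_two_pow
  have h2 : 2 ^ (i + 1) = 2 * 2 ^ i := by ring
  rcases hg k hk with h | ⟨a, h⟩ | ⟨u, hu, v, hv, h⟩
  · rw [h, natDegree_X]; omega
  · rw [h, natDegree_C]; positivity
  · have hu' := hmin u hu
    have hv' := hmin v hv
    rcases h with h | h | h
    · rw [h]
      have h3 := natDegree_add_le (g u) (g v)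
      have h4 : max (g u).natDegree (g v).natDegree < 2 ^ i := max_lt hu' hv'
      omega
    · rw [h]
      have h3 := natDegree_sub_le (g u) (g v)
      have h4 : max (g u).natDegree (g v).natDegree < 2 ^ i := max_lt hu' hv'
      omega
    · rw [h]
      have h3 := natDegree_mul_le (p := g u) (q := g v)
      omega

end Pool.Agent.H537R6
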